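import Mathlib

-- merged part: Pool.Agent.Work.MP_0bf9cb_lc.Eth.Defs
section
/-!
The polytope attached to an independent transversal instance whose conflict graph is a disjoint
union of paths with three vertices: definitions and local facts.

Options are numbered `0, ..., 3 * n - 1`; component `o` has centre `3 * o` and leaves
`3 * o + 1`, `3 * o + 2`; `sl x` is the slot of option `x`; slot `a` lies in block `a / b`.
-/

namespace Pool.Agent.Work.MP_0bf9cb_lc.Eth

open Finset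

section defs

variable {K : Type} [Field K] [LinearOrder K]

def mu (l : ℕ → K) (o : ℕ) : K := min (l (3 * o)) (l (3 * o + 1)) + min (l (3 * o)) (l (3 * o + 2))

def al (l : ℕ → K) (x : ℕ) : K :=
  if x % 3 = 0 then max 0 (l x - max (l (x + 1)) (l (x + 2))) else max 0 (l x - l (3 * (x / 3)))

def alS (n : ℕ) (sl : ℕ → ℕ) (l : ℕ → K) (a : ℕ) : K :=
  ∑ x ∈ range (3 * n), if sl x = a then al l x else 0

def muT (n : ℕ) (l : ℕ → K) : K := ∑ o ∈ range n, mu l o

abbrev tch (b : ℕ) (sl : ℕ → ℕ) (o β : ℕ) : Prop :=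
  sl (3 * o) / b = β ∨ sl (3 * o + 1) / b = β ∨ sl (3 * o + 2) / b = β

def up (b : ℕ) (sl : ℕ → ℕ) (l : ℕ → K) (o β : ℕ) : K := if tch b sl o β then 0 else mu l o

def lift (n S b : ℕ) (sl : ℕ → ℕ) (d a : ℕ → ℕ) (l : ℕ → K) (o β : ℕ) : K :=
  up b sl l o β - if o = d β then muT n l + alS n sl l (a β) - (S : K)⁻¹ else 0

end defs

/-- The parameters of an instance. -/
structure Par (n S b B : ℕ) (sl : ℕ → ℕ) : Prop where
  hS : 0 < S
  hb : 0 < b
  sl_lt : ∀ x < 3 * n, sl x < S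
  ne1 : ∀ o < n, sl (3 * o) ≠ sl (3 * o + 1)
  ne2 : ∀ o < n, sl (3 * o) ≠ sl (3 * o + 2)
  blk_lt : ∀ a < S, a / b < B
  blk_ne : ∀ β < B, β * b < S

/-- Membership in the polytope. -/
structure Feas (n S b B : ℕ) (sl : ℕ → ℕ) (l : ℕ → ℝ) (m : ℕ → ℕ → ℝ) : Prop where
  nn : ∀ x < 3 * n, 0 ≤ l x
  sum : ∑ x ∈ range (3 * n), l x = 1
  le : ∀ o < n, ∀ β < B, m o β ≤ up b sl l o β
  blk : ∀ a < S, ∑ o ∈ range n, (up b sl l o (a / b) - m o (a / b)) ≤
    muT n l + alS n sl l a - (S : ℝ)⁻¹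

/-- Extreme points of the polytope. -/
def Ext (n S b B : ℕ) (sl : ℕ → ℕ) (l : ℕ → ℝ) (m : ℕ → ℕ → ℝ) : Prop :=
  Feas n S b B sl l m ∧ ∀ l1 m1 l2 m2, Feas n S b B sl l1 m1 → Feas n S b B sl l2 m2 →
    (∀ x < 3 * n, l1 x + l2 x = 2 * l x) → (∀ o < n, ∀ β < B, m1 o β + m2 o β = 2 * m o β) →
    (∀ x < 3 * n, l1 x = l x) ∧ ∀ o < n, ∀ β < B, m1 o β = m o β

/-- Independent sets that meet every slot. -/
def Tr (n S : ℕ) (sl : ℕ → ℕ) (T : ℕ → Prop) : Prop :=
  (∀ a < S, ∃ x < 3 * n, T x ∧ sl x = a) ∧ ∀ o < n, T (3 * o) → ¬ T (3 * o + 1) ∧ ¬ T (3 * o + 2)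

/-- The weights of the six connected pieces of a component. -/
noncomputable def wt (l : ℕ → ℝ) (o j : ℕ) : ℝ :=
  if j < 3 then al l (3 * o + j)
  else if j = 3 then min (l (3 * o)) (l (3 * o + 1)) - min (l (3 * o)) (min (l (3 * o + 1)) (l (3 * o + 2)))
  else if j = 4 then min (l (3 * o)) (l (3 * o + 2)) - min (l (3 * o)) (min (l (3 * o + 1)) (l (3 * o + 2)))
  else min (l (3 * o)) (min (l (3 * o + 1)) (l (3 * o + 2)))

/-- The vector with given piece weights. -/
def rc (w : ℕ → ℕ → ℝ) (x : ℕ) : ℝ :=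
  if x % 3 = 0 then w (x / 3) 0 + w (x / 3) 3 + w (x / 3) 4 + w (x / 3) 5
  else if x % 3 = 1 then w (x / 3) 1 + w (x / 3) 3 + w (x / 3) 5
  else w (x / 3) 2 + w (x / 3) 4 + w (x / 3) 5

theorem rc0 (w : ℕ → ℕ → ℝ) (o : ℕ) : rc w (3 * o) = w o 0 + w o 3 + w o 4 + w o 5 := by
  simp [rc]

theorem rc1 (w : ℕ → ℕ → ℝ) (o : ℕ) : rc w (3 * o + 1) = w o 1 + w o 3 + w o 5 := by
  have : (3 * o + 1) / 3 = o := by omega
  simp [rc, this]

theorem rc2 (w : ℕ → ℕ → ℝ) (o : ℕ) : rc w (3 * o + 2) = w o 2 + w o 4 + w o 5 := by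
  have : (3 * o + 2) / 3 = o := by omega
  have h : (3 * o + 2) % 3 = 2 := by omega
  simp [rc, this, h]

section
variable {K : Type} [Field K] [LinearOrder K]

theorem al0 (l : ℕ → K) (o : ℕ) :
    al l (3 * o) = max 0 (l (3 * o) - max (l (3 * o + 1)) (l (3 * o + 2))) := by
  simp [al]

theorem al1 (l : ℕ → K) (o : ℕ) : al l (3 * o + 1) = max 0 (l (3 * o + 1) - l (3 * o)) := by
  have : (3 * o + 1) / 3 = o := by omega
  simp [al, this]

theorem al2 (l : ℕ → K) (o : ℕ) : al l (3 * o + 2) = max 0 (l (3 * o + 2) - l (3 * o)) := by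
  have : (3 * o + 2) / 3 = o := by omega
  have h : (3 * o + 2) % 3 = 2 := by omega
  simp [al, this, h]

theorem al_nonneg (l : ℕ → K) (x : ℕ) : 0 ≤ al l x := by
  unfold al; split_ifs <;> exact le_max_left _ _

end

theorem three_cases (x : ℕ) : ∃ o, x = 3 * o ∨ x = 3 * o + 1 ∨ x = 3 * o + 2 :=
  ⟨x / 3, by omega⟩

theorem alS_nonneg (n : ℕ) (sl : ℕ → ℕ) (l : ℕ → ℝ) (a : ℕ) : 0 ≤ alS n sl l a :=
  sum_nonneg fun x _ => by split_ifs; exacts [al_nonneg l x, le_rfl]

theorem wt0 (l : ℕ → ℝ) (o : ℕ) :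
    wt l o 0 = max 0 (l (3 * o) - max (l (3 * o + 1)) (l (3 * o + 2))) := by simp [wt, al0]
theorem wt1 (l : ℕ → ℝ) (o : ℕ) : wt l o 1 = max 0 (l (3 * o + 1) - l (3 * o)) := by simp [wt, al1]
theorem wt2 (l : ℕ → ℝ) (o : ℕ) : wt l o 2 = max 0 (l (3 * o + 2) - l (3 * o)) := by simp [wt, al2]
theorem wt3 (l : ℕ → ℝ) (o : ℕ) : wt l o 3 = min (l (3 * o)) (l (3 * o + 1)) -
    min (l (3 * o)) (min (l (3 * o + 1)) (l (3 * o + 2))) := by simp [wt]
theorem wt4 (l : ℕ → ℝ) (o : ℕ) : wt l o 4 = min (l (3 * o)) (l (3 * o + 2)) -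
    min (l (3 * o)) (min (l (3 * o + 1)) (l (3 * o + 2))) := by simp [wt]
theorem wt5 (l : ℕ → ℝ) (o : ℕ) : wt l o 5 =
    min (l (3 * o)) (min (l (3 * o + 1)) (l (3 * o + 2))) := by simp [wt]

theorem rc_wt (l : ℕ → ℝ) (x : ℕ) : rc (wt l) x = l x := by
  obtain ⟨o, rfl | rfl | rfl⟩ := three_cases x
  · rw [rc0, wt0, wt3, wt4, wt5]
    simp only [min_def, max_def]; split_ifs <;> linarith
  · rw [rc1, wt1, wt3, wt5]
    simp only [min_def, max_def]; split_ifs <;> linarith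
  · rw [rc2, wt2, wt4, wt5]
    simp only [min_def, max_def]; split_ifs <;> linarith

theorem six_cases {j : ℕ} (h : j < 6) : j = 0 ∨ j = 1 ∨ j = 2 ∨ j = 3 ∨ j = 4 ∨ j = 5 := by omega

theorem wt_nonneg {l : ℕ → ℝ} {o : ℕ} (h0 : 0 ≤ l (3 * o)) (h1 : 0 ≤ l (3 * o + 1))
    (h2 : 0 ≤ l (3 * o + 2)) {j : ℕ} (hj : j < 6) : 0 ≤ wt l o j := by
  rcases six_cases hj with rfl | rfl | rfl | rfl | rfl | rfl
  · rw [wt0]; exact le_max_left _ _
  · rw [wt1]; exact le_max_left _ _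
  · rw [wt2]; exact le_max_left _ _
  · rw [wt3]; simp only [min_def]; split_ifs <;> linarith
  · rw [wt4]; simp only [min_def]; split_ifs <;> linarith
  · rw [wt5]; exact le_min h0 (le_min h1 h2)

theorem loc_aux {w0 w1 w2 w3 w4 w5 : ℝ} (h0 : 0 ≤ w0) (h1 : 0 ≤ w1) (h2 : 0 ≤ w2) (h3 : 0 ≤ w3)
    (h4 : 0 ≤ w4) (h : (w0 = 0 ∧ w3 = 0 ∧ w4 = 0) ∨ (w0 = 0 ∧ w2 = 0 ∧ w4 = 0) ∨
      (w0 = 0 ∧ w1 = 0 ∧ w3 = 0) ∨ (w1 = 0 ∧ w2 = 0 ∧ w3 = 0) ∨ (w1 = 0 ∧ w2 = 0 ∧ w4 = 0)) :
    min (w0 + w3 + w4 + w5) (w1 + w3 + w5) + min (w0 + w3 + w4 + w5) (w2 + w4 + w5) =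
      w3 + w4 + 2 * w5 ∧
    max 0 (w0 + w3 + w4 + w5 - max (w1 + w3 + w5) (w2 + w4 + w5)) = w0 ∧
    max 0 (w1 + w3 + w5 - (w0 + w3 + w4 + w5)) = w1 ∧
    max 0 (w2 + w4 + w5 - (w0 + w3 + w4 + w5)) = w2 := by
  rcases h with ⟨rfl, rfl, rfl⟩ | ⟨rfl, rfl, rfl⟩ | ⟨rfl, rfl, rfl⟩ | ⟨rfl, rfl, rfl⟩ |
    ⟨rfl, rfl, rfl⟩ <;>
  (refine ⟨?_, ?_, ?_, ?_⟩ <;> simp only [min_def, max_def] <;> split_ifs <;> linarith)

theorem wt_pattern (l : ℕ → ℝ) (o : ℕ) :
    (wt l o 0 = 0 ∧ wt l o 3 = 0 ∧ wt l o 4 = 0) ∨ (wt l o 0 = 0 ∧ wt l o 2 = 0 ∧ wt l o 4 = 0) ∨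
      (wt l o 0 = 0 ∧ wt l o 1 = 0 ∧ wt l o 3 = 0) ∨ (wt l o 1 = 0 ∧ wt l o 2 = 0 ∧ wt l o 3 = 0) ∨
      (wt l o 1 = 0 ∧ wt l o 2 = 0 ∧ wt l o 4 = 0) := by
  rw [wt0, wt1, wt2, wt3, wt4]
  generalize l (3 * o) = y
  generalize l (3 * o + 1) = p
  generalize l (3 * o + 2) = q
  rcases le_total y p with a | a <;> rcases le_total y q with b | b <;>
    rcases le_total p q with c | c
  all_goals first
    | (left; refine ⟨?_, ?_, ?_⟩ <;> simp only [min_def, max_def] <;> split_ifs <;> linarith)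
    | (right; left; refine ⟨?_, ?_, ?_⟩ <;> simp only [min_def, max_def] <;> split_ifs <;> linarith)
    | (right; right; left
       refine ⟨?_, ?_, ?_⟩ <;> simp only [min_def, max_def] <;> split_ifs <;> linarith)
    | (right; right; right; left
       refine ⟨?_, ?_, ?_⟩ <;> simp only [min_def, max_def] <;> split_ifs <;> linarith)
    | (right; right; right; right
       refine ⟨?_, ?_, ?_⟩ <;> simp only [min_def, max_def] <;> split_ifs <;> linarith)

/-- On vectors with the zero pattern of `wt l` everything is linear in the weights. -/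
theorem loc (l : ℕ → ℝ) (w : ℕ → ℕ → ℝ) (o : ℕ) (h : ∀ j < 6, 0 ≤ w o j)
    (hz : ∀ j < 6, wt l o j = 0 → w o j = 0) :
    mu (rc w) o = w o 3 + w o 4 + 2 * w o 5 ∧ ∀ k < 3, al (rc w) (3 * o + k) = w o k := by
  have key := loc_aux (w5 := w o 5) (h 0 (by omega)) (h 1 (by omega)) (h 2 (by omega))
    (h 3 (by omega)) (h 4 (by omega)) (by
      have a0 := hz 0 (by omega)
      have a1 := hz 1 (by omega)
      have a2 := hz 2 (by omega)
      have a3 := hz 3 (by omega)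
      have a4 := hz 4 (by omega)
      rcases wt_pattern l o with ⟨x, y, z⟩ | ⟨x, y, z⟩ | ⟨x, y, z⟩ | ⟨x, y, z⟩ | ⟨x, y, z⟩
      exacts [.inl ⟨a0 x, a3 y, a4 z⟩, .inr (.inl ⟨a0 x, a2 y, a4 z⟩),
        .inr (.inr (.inl ⟨a0 x, a1 y, a3 z⟩)), .inr (.inr (.inr (.inl ⟨a1 x, a2 y, a3 z⟩))),
        .inr (.inr (.inr (.inr ⟨a1 x, a2 y, a4 z⟩)))])
  refine ⟨by rw [mu, rc0, rc1, rc2]; exact key.1, fun k hk => ?_⟩
  obtain rfl | rfl | rfl : k = 0 ∨ k = 1 ∨ k = 2 := by omega
  · rw [Nat.add_zero, al0, rc0, rc1, rc2]; exact key.2.1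
  · rw [al1, rc0, rc1]; exact key.2.2.1
  · rw [al2, rc0, rc2]; exact key.2.2.2

theorem mu_eq_wt (l : ℕ → ℝ) (o : ℕ) : mu l o = wt l o 3 + wt l o 4 + 2 * wt l o 5 := by
  rw [mu, wt3, wt4, wt5]; ring

theorem al_eq_wt (l : ℕ → ℝ) (x : ℕ) : al l x = wt l (x / 3) (x % 3) := by
  rw [wt, if_pos (Nat.mod_lt _ (by omega)), Nat.div_add_mod]

end Pool.Agent.Work.MP_0bf9cb_lc.Eth
end

-- merged part: Pool.Agent.Work.MP_0bf9cb_lc.Eth.Geo
section
/-!
Extreme points of the polytope: the fibres over the simplex and the perturbation lemma.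
-/

namespace Pool.Agent.Work.MP_0bf9cb_lc.Eth

open Finset Filter Topology

variable {n S b B : ℕ} {sl : ℕ → ℕ} {l : ℕ → ℝ} {m : ℕ → ℕ → ℝ}

theorem mu_nonneg (h : ∀ x < 3 * n, 0 ≤ l x) {o : ℕ} (ho : o < n) : 0 ≤ mu l o :=
  add_nonneg (le_min (h _ (by omega)) (h _ (by omega))) (le_min (h _ (by omega)) (h _ (by omega)))

theorem Feas.le_one (h : Feas n S b B sl l m) {x : ℕ} (hx : x < 3 * n) : l x ≤ 1 :=
  h.sum ▸ single_le_sum (f := l) (fun y hy => h.nn y (mem_range.1 hy)) (mem_range.2 hx)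

theorem Feas.slack (P : Par n S b B sl) (h : Feas n S b B sl l m) {a : ℕ} (ha : a < S) :
    0 ≤ ∑ o ∈ range n, (up b sl l o (a / b) - m o (a / b)) :=
  sum_nonneg fun o ho => sub_nonneg.2 (h.le o (mem_range.1 ho) _ (P.blk_lt a ha))

theorem Feas.bound (P : Par n S b B sl) (h : Feas n S b B sl l m) {o β : ℕ} (ho : o < n)
    (hβ : β < B) : |m o β| ≤ 2 * n + 3 := by
  have mu2 : ∀ o < n, mu l o ≤ 2 := fun o ho => by
    have := h.le_one (x := 3 * o) (by omega)
    have a1 := min_le_left (l (3 * o)) (l (3 * o + 1))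
    have a2 := min_le_left (l (3 * o)) (l (3 * o + 2))
    unfold mu; linarith only [this, a1, a2]
  have up0 : 0 ≤ up b sl l o β := by
    unfold up; split_ifs; exacts [le_rfl, mu_nonneg h.nn ho]
  have up2 : up b sl l o β ≤ 2 := by
    unfold up; split_ifs; exacts [by norm_num, mu2 o ho]
  have h1 := h.le o ho β hβ
  have e : β * b / b = β := Nat.mul_div_cancel _ P.hb
  have h2 := h.blk _ (P.blk_ne β hβ)
  rw [e] at h2
  have h3 := single_le_sum (f := fun o => up b sl l o β - m o β)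
    (fun y hy => sub_nonneg.2 (h.le y (mem_range.1 hy) β hβ)) (mem_range.2 ho)
  have h4 : muT n l ≤ 2 * n := by
    have := sum_le_card_nsmul (range n) (mu l) 2 fun y hy => mu2 y (mem_range.1 hy)
    rw [card_range, nsmul_eq_mul] at this
    unfold muT; linarith only [this]
  have h5 : alS n sl l (β * b) ≤ 1 := by
    rw [← h.sum]
    refine sum_le_sum fun x hx => ?_
    have hx' := mem_range.1 hx
    have a0 := h.nn x hx'
    split_ifs
    · obtain ⟨o, rfl | rfl | rfl⟩ := three_cases x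
      · have := h.nn (3 * o + 1) (by omega)
        have := le_max_left (l (3 * o + 1)) (l (3 * o + 2))
        rw [al0]; exact max_le a0 (by linarith)
      · have := h.nn (3 * o) (by omega)
        rw [al1]; exact max_le a0 (by linarith only [this])
      · have := h.nn (3 * o) (by omega)
        rw [al2]; exact max_le a0 (by linarith only [this])
    · exact a0
  have h6 : (0 : ℝ) ≤ (S : ℝ)⁻¹ := by positivity
  have h7 : (0 : ℝ) ≤ n := by positivity
  rw [abs_le]
  constructor <;> linarith only [up0, h2, h3, h4, h5, h6, up2, h1]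

/-- A solution gives an extreme point without conflicts. -/
theorem yes_case (P : Par n S b B sl) {T : ℕ → Prop} (hT : Tr n S sl T) :
    ∃ l : ℕ → ℝ, Ext n S b B sl l (fun _ _ => 0) ∧ muT n l = 0 := by
  classical
  choose! t ht1 ht2 ht3 using hT.1
  have hS : (0 : ℝ) < S := by exact_mod_cast P.hS
  -- vectors supported on the chosen options
  have key : ∀ v : ℕ → ℝ, (∀ x < 3 * n, 0 ≤ v x) → (∀ x < 3 * n, t (sl x) ≠ x → v x = 0) →
      (∀ o < n, mu v o = 0) ∧ (∀ a < S, alS n sl v a = v (t a)) ∧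
        ∑ x ∈ range (3 * n), v x = ∑ a ∈ range S, v (t a) := by
    intro v v0 vz
    have z : ∀ o < n, v (3 * o) = 0 ∨ (v (3 * o + 1) = 0 ∧ v (3 * o + 2) = 0) := by
      intro o ho
      by_cases e : t (sl (3 * o)) = 3 * o
      · have a := hT.2 o ho (e ▸ ht2 _ (P.sl_lt _ (by omega)))
        exact Or.inr ⟨vz _ (by omega) fun e' => a.1 (e' ▸ ht2 _ (P.sl_lt _ (by omega))),
          vz _ (by omega) fun e' => a.2 (e' ▸ ht2 _ (P.sl_lt _ (by omega)))⟩
      · exact Or.inl (vz _ (by omega) e)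
    have alv : ∀ x < 3 * n, al v x = v x := by
      intro x hx
      obtain ⟨o, rfl | rfl | rfl⟩ := three_cases x
      all_goals
        have a0 := v0 (3 * o) (by omega)
        have a1 := v0 (3 * o + 1) (by omega)
        have a2 := v0 (3 * o + 2) (by omega)
        have := z o (by omega)
      · rw [al0]; simp only [max_def]; rcases this with e | ⟨e, e'⟩ <;> split_ifs <;> linarith
      · rw [al1]; simp only [max_def]; rcases this with e | ⟨e, e'⟩ <;> split_ifs <;> linarith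
      · rw [al2]; simp only [max_def]; rcases this with e | ⟨e, e'⟩ <;> split_ifs <;> linarith
    have als : ∀ a < S, ∑ x ∈ range (3 * n), (if sl x = a then v x else 0) = v (t a) := by
      intro a ha
      rw [sum_eq_single (t a), if_pos (ht3 a ha)]
      · intro x hx hne
        split_ifs with e
        · exact vz x (mem_range.1 hx) (by rw [e]; exact hne.symm)
        · rfl
      · intro h; exact absurd (mem_range.2 (ht1 a ha)) h
    refine ⟨fun o ho => ?_, fun a ha => ?_, ?_⟩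
    · have a0 := v0 (3 * o) (by omega)
      have a1 := v0 (3 * o + 1) (by omega)
      have a2 := v0 (3 * o + 2) (by omega)
      unfold mu
      simp only [min_def]
      rcases z o ho with e | ⟨e, e'⟩ <;> split_ifs <;> linarith
    · rw [← als a ha]
      exact sum_congr rfl fun x hx => by rw [alv x (mem_range.1 hx)]
    · rw [← sum_congr rfl fun a ha => als a (mem_range.1 ha), sum_comm]
      refine sum_congr rfl fun x hx => ?_
      rw [sum_ite_eq, if_pos (mem_range.2 (P.sl_lt x (mem_range.1 hx)))]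
  let l : ℕ → ℝ := fun x => if t (sl x) = x then (S : ℝ)⁻¹ else 0
  have l0 : ∀ x < 3 * n, 0 ≤ l x := fun x _ => by
    simp only [l]; split_ifs; exacts [by positivity, le_rfl]
  have lt : ∀ a < S, l (t a) = (S : ℝ)⁻¹ := fun a ha => by simp only [l, ht3 a ha, if_true]
  obtain ⟨k1, k2, k3⟩ := key l l0 fun x _ h => if_neg h
  have upz : ∀ v : ℕ → ℝ, (∀ o < n, mu v o = 0) → ∀ o < n, ∀ β, up b sl v o β = 0 := by
    intro v hv o ho β
    unfold up; split_ifs; exacts [rfl, hv o ho]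
  have muz : ∀ v : ℕ → ℝ, (∀ o < n, mu v o = 0) → muT n v = 0 := fun v hv =>
    sum_eq_zero fun o ho => hv o (mem_range.1 ho)
  refine ⟨l, ⟨⟨l0, ?_, fun o ho β _ => (upz l k1 o ho β).ge, fun a ha => ?_⟩, ?_⟩, muz l k1⟩
  · rw [k3, sum_congr rfl fun a ha => lt a (mem_range.1 ha)]
    simp [hS.ne']
  · rw [muz l k1, k2 a ha, lt a ha, sum_eq_zero fun o ho => by rw [upz l k1 o (mem_range.1 ho)]; simp]
    simp
  · intro l1 m1 l2 m2 f1 f2 hl hm
    have z1 : ∀ x < 3 * n, t (sl x) ≠ x → l1 x = 0 := fun x hx h => by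
      have := hl x hx
      have a : l x = 0 := if_neg h
      have := f1.nn x hx
      have := f2.nn x hx
      linarith
    obtain ⟨j1, j2, j3⟩ := key l1 f1.nn z1
    have ge : ∀ a ∈ range S, (S : ℝ)⁻¹ ≤ l1 (t a) := fun a ha => by
      have a1 := f1.blk a (mem_range.1 ha)
      have a2 := f1.slack P (mem_range.1 ha)
      rw [muz l1 j1, j2 a (mem_range.1 ha)] at a1
      linarith only [a1, a2]
    have eq := (sum_eq_sum_iff_of_le ge).1 (by rw [← j3, f1.sum]; simp [hS.ne'])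
    refine ⟨fun x hx => ?_, fun o ho β hβ => ?_⟩
    · by_cases e : t (sl x) = x
      · have := eq _ (mem_range.2 (P.sl_lt x hx))
        rw [e] at this
        rw [← this]; exact (if_pos e).symm
      · rw [z1 x hx e]; exact (if_neg e).symm
    · have e : β * b / b = β := Nat.mul_div_cancel _ P.hb
      have a1 := f1.blk _ (P.blk_ne β hβ)
      rw [e, muz l1 j1, j2 _ (P.blk_ne β hβ), ← eq _ (mem_range.2 (P.blk_ne β hβ))] at a1
      have h3 := single_le_sum (f := fun o => up b sl l1 o β - m1 o β)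
        (fun y hy => sub_nonneg.2 (f1.le y (mem_range.1 hy) β hβ)) (mem_range.2 ho)
      have a2 := f1.le o ho β hβ
      rw [upz l1 j1 o ho] at a2
      simp only [upz l1 j1 o ho] at h3
      linarith only [a1, h3, a2]

/-- Without solutions every feasible point has a slot of level zero. -/
theorem exists_level_zero (hno : ¬ ∃ T, Tr n S sl T) (l : ℕ → ℝ) :
    ∃ a < S, alS n sl l a = 0 := by
  by_contra h
  push Not at h
  refine hno ⟨fun x => 0 < al l x, fun a ha => ?_, fun o _ h0 => ?_⟩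
  · by_contra hc
    push Not at hc
    refine h a ha (sum_eq_zero fun x hx => ?_)
    split_ifs with e
    · exact le_antisymm (not_lt.1 fun h' => hc x (mem_range.1 hx) h' e) (al_nonneg l x)
    · rfl
  · simp only [al0, al1, al2, max_def] at h0 ⊢
    constructor <;> split_ifs at h0 ⊢ <;> linarith

theorem Feas.mu_ge (P : Par n S b B sl) (hno : ¬ ∃ T, Tr n S sl T) (h : Feas n S b B sl l m) :
    (S : ℝ)⁻¹ ≤ muT n l := by
  obtain ⟨a, ha, e⟩ := exists_level_zero hno l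
  have a1 := h.blk a ha
  have a2 := h.slack P ha
  linarith only [e, a1, a2]

theorem feas_lift (P : Par n S b B sl) {d a : ℕ → ℕ} (h0 : ∀ x < 3 * n, 0 ≤ l x)
    (h1 : ∑ x ∈ range (3 * n), l x = 1) (h2 : (S : ℝ)⁻¹ ≤ muT n l)
    (h3 : ∀ c < S, alS n sl l (a (c / b)) ≤ alS n sl l c) :
    Feas n S b B sl l (lift n S b sl d a l) := by
  have _ := P
  refine ⟨h0, h1, fun o _ β _ => ?_, fun c hc => ?_⟩
  · have := alS_nonneg n sl l (a β)
    unfold lift; split_ifs <;> linarith only [h2, this]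
  · have := alS_nonneg n sl l c
    have := h3 c hc
    simp only [lift, sub_sub_cancel, sum_ite_eq']
    split_ifs <;> linarith

theorem exists_argmin (P : Par n S b B sl) (l : ℕ → ℝ) : ∃ a : ℕ → ℕ, ∀ β < B,
    a β < S ∧ a β / b = β ∧ ∀ c < S, c / b = β → alS n sl l (a β) ≤ alS n sl l c := by
  have : ∀ β, ∃ a, β < B →
      a < S ∧ a / b = β ∧ ∀ c < S, c / b = β → alS n sl l a ≤ alS n sl l c := by
    intro β
    by_cases hβ : β < B
    · obtain ⟨a, h1, h2⟩ := exists_min_image ((range S).filter fun c => c / b = β) (alS n sl l)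
        ⟨β * b, by simp [P.blk_ne β hβ, Nat.mul_div_cancel _ P.hb]⟩
      simp only [mem_filter, mem_range] at h1 h2
      exact ⟨a, fun _ => ⟨h1.1, h1.2, fun c c1 c2 => h2 c ⟨c1, c2⟩⟩⟩
    · exact ⟨0, fun h => absurd h hβ⟩
  choose a ha using this
  exact ⟨a, ha⟩

/-- Moving slack inside one block. -/
theorem Ext.fib (h : Ext n S b B sl l m) {β : ℕ} (hβ : β < B) (e : ℕ → ℝ)
    (h1 : ∀ o < n, |e o| ≤ up b sl l o β - m o β)
    (h2 : ∀ c < S, c / b = β → ∑ o ∈ range n, (up b sl l o β - m o β) + |∑ o ∈ range n, e o| ≤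
      muT n l + alS n sl l c - (S : ℝ)⁻¹) {o : ℕ} (ho : o < n) : e o = 0 := by
  have f : ∀ s : ℝ, |s| = 1 →
      Feas n S b B sl l fun o γ => m o γ + if γ = β then s * e o else 0 := by
    intro s hs
    refine ⟨h.1.nn, h.1.sum, fun o ho γ hγ => ?_, fun c hc => ?_⟩
    · split_ifs with g
      · have := h1 o ho
        have a := le_abs_self (s * e o)
        rw [abs_mul, hs] at a
        subst g; linarith only [a, this]
      · simpa using h.1.le o ho γ hγ
    · by_cases g : c / b = β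
      · have := h2 c hc g
        have a := neg_abs_le (s * ∑ o ∈ range n, e o)
        rw [abs_mul, hs] at a
        simp only [g, if_true, ← sub_sub, sum_sub_distrib, ← mul_sum] at this ⊢
        linarith only [a, this]
      · simpa [g] using h.1.blk c hc
  have := (h.2 _ _ _ _ (f 1 (by simp)) (f (-1) (by simp)) (fun x _ => by ring)
    (fun o _ γ _ => by split_ifs <;> ring)).2 o ho β hβ
  simpa using this

/-- The fibre of an extreme point is a vertex of a product of simplices. -/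
theorem Ext.eq_lift (h : Ext n S b B sl l m) {a : ℕ → ℕ} (ha : ∀ β < B,
    a β < S ∧ a β / b = β ∧ ∀ c < S, c / b = β → alS n sl l (a β) ≤ alS n sl l c) :
    ∃ d : ℕ → ℕ, (∀ β, d β ≤ n) ∧ ∀ o < n, ∀ β < B, m o β = lift n S b sl d a l o β := by
  have : ∀ β, ∃ d ≤ n, β < B → ∀ o < n, m o β = up b sl l o β -
      if o = d then muT n l + alS n sl l (a β) - (S : ℝ)⁻¹ else 0 := by
    intro β
    by_cases hβ : β < B
    swap
    · exact ⟨0, Nat.zero_le _, fun h => absurd h hβ⟩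
    obtain ⟨a1, a2, a3⟩ := ha β hβ
    have s0 : ∀ o < n, 0 ≤ up b sl l o β - m o β := fun o ho => sub_nonneg.2 (h.1.le o ho β hβ)
    by_cases hz : ∀ o < n, up b sl l o β - m o β = 0
    · refine ⟨n, le_rfl, fun _ o ho => ?_⟩
      rw [if_neg ho.ne]; linarith only [hz, ho, hz o ho]
    push Not at hz
    obtain ⟨d, hd, hd'⟩ := hz
    have dp := lt_of_le_of_ne (s0 d hd) hd'.symm
    have z : ∀ o < n, o ≠ d → up b sl l o β - m o β = 0 := by
      intro o ho hne
      have m0 := le_min (s0 o ho) dp.le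
      have := h.fib hβ (fun x => (if x = o then min (up b sl l o β - m o β) (up b sl l d β - m d β)
        else 0) - if x = d then min (up b sl l o β - m o β) (up b sl l d β - m d β) else 0)
        (fun x hx => ?_) (fun c hc g => ?_) ho
      · simp only [if_true, hne, if_false, sub_zero] at this
        rcases min_eq_iff.1 this with g | g
        · exact g.1
        · exact absurd g.1 hd'
      · by_cases g1 : x = o
        · subst g1; simp only [if_true, hne, if_false, sub_zero, abs_of_nonneg m0, min_le_left]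
        · by_cases g2 : x = d
          · subst g2
            simp only [g1, if_true, if_false, zero_sub, abs_neg, abs_of_nonneg m0, min_le_right]
          · simpa [g1, g2] using h.1.le x hx β hβ
      · have := h.1.blk c hc
        rw [g] at this
        simpa [ho, hd] using this
    have sm : ∑ o ∈ range n, (up b sl l o β - m o β) = up b sl l d β - m d β :=
      sum_eq_single d (fun o ho hne => z o (mem_range.1 ho) hne)
        fun h => absurd (mem_range.2 hd) h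
    have le := h.1.blk _ a1
    rw [a2, sm] at le
    have eq : up b sl l d β - m d β = muT n l + alS n sl l (a β) - (S : ℝ)⁻¹ := by
      have m0 := le_min dp.le (sub_nonneg.2 le)
      have := h.fib hβ (fun x => if x = d then min (up b sl l d β - m d β)
        (muT n l + alS n sl l (a β) - (S : ℝ)⁻¹ - (up b sl l d β - m d β)) else 0)
        (fun x hx => ?_) (fun c hc g => ?_) hd
      · simp only [if_true] at this
        rcases min_eq_iff.1 this with g | g
        · exact absurd g.1 hd'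
        · linarith only [g, le, g.1]
      · split_ifs with g2
        · subst g2; rw [abs_of_nonneg m0]; exact min_le_left _ _
        · simpa using h.1.le x hx β hβ
      · have := a3 c hc g
        have a4 := min_le_right (up b sl l d β - m d β)
          (muT n l + alS n sl l (a β) - (S : ℝ)⁻¹ - (up b sl l d β - m d β))
        rw [sm, sum_ite_eq', if_pos (mem_range.2 hd), abs_of_nonneg m0]
        linarith only [this, a4]
    refine ⟨d, hd.le, fun _ o ho => ?_⟩
    split_ifs with g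
    · subst g; linarith only [le, eq]
    · linarith only [z, ho, g, z o ho g]
  choose d h1 h2 using this
  exact ⟨d, h1, fun o ho β hβ => h2 β hβ o ho⟩

end Pool.Agent.Work.MP_0bf9cb_lc.Eth
end

-- merged part: Pool.Agent.Work.MP_0bf9cb_lc.Eth.No
section
/-!
Without solutions every extreme point is a combination of two small pieces.
-/

namespace Pool.Agent.Work.MP_0bf9cb_lc.Eth

open Finset Filter Topology

variable {n S b B : ℕ} {sl : ℕ → ℕ} {l : ℕ → ℝ} {m : ℕ → ℕ → ℝ} {a d : ℕ → ℕ}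

def Mw (n : ℕ) (δ : ℕ → ℕ → ℝ) : ℝ := ∑ o ∈ range n, (δ o 3 + δ o 4 + 2 * δ o 5)

def Aw (n : ℕ) (sl : ℕ → ℕ) (δ : ℕ → ℕ → ℝ) (c : ℕ) : ℝ :=
  ∑ x ∈ range (3 * n), if sl x = c then δ (x / 3) (x % 3) else 0

def Sw (n : ℕ) (δ : ℕ → ℕ → ℝ) : ℝ := ∑ x ∈ range (3 * n), rc δ x

def cmb (p q : ℝ) (δ δ' : ℕ → ℕ → ℝ) (o j : ℕ) : ℝ := p * δ o j + q * δ' o j

theorem rc_cmb (p q : ℝ) (δ δ' : ℕ → ℕ → ℝ) (x : ℕ) :
    rc (cmb p q δ δ') x = p * rc δ x + q * rc δ' x := by
  unfold rc cmb; split_ifs <;> ring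

theorem Mw_cmb (p q : ℝ) (δ δ' : ℕ → ℕ → ℝ) : Mw n (cmb p q δ δ') = p * Mw n δ + q * Mw n δ' := by
  simp only [Mw, cmb, mul_sum, ← sum_add_distrib]
  exact sum_congr rfl fun _ _ => by ring

theorem Aw_cmb (p q : ℝ) (δ δ' : ℕ → ℕ → ℝ) (c : ℕ) :
    Aw n sl (cmb p q δ δ') c = p * Aw n sl δ c + q * Aw n sl δ' c := by
  simp only [Aw, cmb, mul_sum, ← sum_add_distrib]
  exact sum_congr rfl fun _ _ => by split_ifs <;> ring

theorem Sw_cmb (p q : ℝ) (δ δ' : ℕ → ℕ → ℝ) : Sw n (cmb p q δ δ') = p * Sw n δ + q * Sw n δ' := by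
  simp only [Sw, rc_cmb, mul_sum, ← sum_add_distrib]

theorem Mw_wt (l : ℕ → ℝ) : Mw n (wt l) = muT n l :=
  sum_congr rfl fun o _ => (mu_eq_wt l o).symm

theorem Aw_wt (l : ℕ → ℝ) (c : ℕ) : Aw n sl (wt l) c = alS n sl l c :=
  sum_congr rfl fun x _ => by rw [al_eq_wt]

theorem Sw_wt (l : ℕ → ℝ) : Sw n (wt l) = ∑ x ∈ range (3 * n), l x :=
  sum_congr rfl fun x _ => rc_wt l x

/-- Admissible directions in the space of piece weights. -/
structure Adm (n S b : ℕ) (sl : ℕ → ℕ) (l : ℕ → ℝ) (a : ℕ → ℕ) (δ : ℕ → ℕ → ℝ) : Prop where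
  supp : ∀ o < n, ∀ j < 6, wt l o j = 0 → δ o j = 0
  tie : ∀ c < S, alS n sl l c = alS n sl l (a (c / b)) → Aw n sl δ c = Aw n sl δ (a (c / b))

theorem adm_wt : Adm n S b sl l a (wt l) :=
  ⟨fun _ _ _ _ h => h, fun c _ h => by rw [Aw_wt, Aw_wt, h]⟩

theorem Adm.cmb {δ δ'} (h : Adm n S b sl l a δ) (h' : Adm n S b sl l a δ') (p q : ℝ) :
    Adm n S b sl l a (cmb p q δ δ') :=
  ⟨fun o ho j hj e => by simp [Eth.cmb, h.supp o ho j hj e, h'.supp o ho j hj e],
    fun c hc e => by rw [Aw_cmb, Aw_cmb, h.tie c hc e, h'.tie c hc e]⟩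

theorem ev_nonneg {p q : ℝ} (hp : 0 ≤ p) (h : p = 0 → q = 0) :
    ∀ᶠ s in 𝓝 (0 : ℝ), 0 ≤ p + s * q := by
  rcases hp.eq_or_lt with e | e
  · simp [← e, h e.symm]
  · have : Tendsto (fun s : ℝ => p + s * q) (𝓝 0) (𝓝 p) := by
      have : Continuous fun s : ℝ => p + s * q := by fun_prop
      simpa using this.tendsto 0
    exact (this.eventually (lt_mem_nhds e)).mono fun _ h => h.le

theorem exists_both {p : ℝ → Prop} (h : ∀ᶠ s in 𝓝 (0 : ℝ), p s) : ∃ ε, 0 < ε ∧ p ε ∧ p (-ε) := by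
  obtain ⟨r, hr, h⟩ := Metric.eventually_nhds_iff.1 h
  refine ⟨r / 2, by linarith only [hr], h ?_, h ?_⟩
  · rw [Real.dist_eq, sub_zero, abs_of_pos (by linarith)]; linarith
  · rw [Real.dist_eq, sub_zero, abs_neg, abs_of_pos (by linarith)]; linarith

/-- The perturbation lemma. -/
theorem Ext.key (P : Par n S b B sl) (h : Ext n S b B sl l m) (hmu : (S : ℝ)⁻¹ ≤ muT n l)
    (ha : ∀ c < S, alS n sl l (a (c / b)) ≤ alS n sl l c)
    (hm : ∀ o < n, ∀ β < B, m o β = lift n S b sl d a l o β) {δ} (hδ : Adm n S b sl l a δ)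
    (h1 : Sw n δ = 0) (h2 : muT n l = (S : ℝ)⁻¹ → Mw n δ = 0) {x : ℕ} (hx : x < 3 * n) :
    rc δ x = 0 := by
  have w0 : ∀ o < n, ∀ j < 6, 0 ≤ wt l o j := fun o ho j hj =>
    wt_nonneg (h.1.nn _ (by omega)) (h.1.nn _ (by omega)) (h.1.nn _ (by omega)) hj
  have e1 : ∀ᶠ s in 𝓝 (0 : ℝ), ∀ o ∈ range n, ∀ j ∈ range 6, 0 ≤ wt l o j + s * δ o j :=
    (eventually_all_finset _).2 fun o ho => (eventually_all_finset _).2 fun j hj =>
      ev_nonneg (w0 o (mem_range.1 ho) j (mem_range.1 hj))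
        (hδ.supp o (mem_range.1 ho) j (mem_range.1 hj))
  have e2 : ∀ᶠ s in 𝓝 (0 : ℝ), ∀ c ∈ range S, 0 ≤ (alS n sl l c - alS n sl l (a (c / b))) +
      s * (Aw n sl δ c - Aw n sl δ (a (c / b))) :=
    (eventually_all_finset _).2 fun c hc => ev_nonneg (sub_nonneg.2 (ha c (mem_range.1 hc)))
      fun e => sub_eq_zero.2 (hδ.tie c (mem_range.1 hc) (sub_eq_zero.1 e))
  have e3 : ∀ᶠ s in 𝓝 (0 : ℝ), 0 ≤ (muT n l - (S : ℝ)⁻¹) + s * Mw n δ :=
    ev_nonneg (sub_nonneg.2 hmu) fun e => h2 (sub_eq_zero.1 e)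
  obtain ⟨ε, hε, p1, p2⟩ := exists_both (e1.and (e2.and e3))
  have f : ∀ s : ℝ, (∀ o ∈ range n, ∀ j ∈ range 6, 0 ≤ wt l o j + s * δ o j) ∧
      (∀ c ∈ range S, 0 ≤ (alS n sl l c - alS n sl l (a (c / b))) +
        s * (Aw n sl δ c - Aw n sl δ (a (c / b)))) ∧ 0 ≤ (muT n l - (S : ℝ)⁻¹) + s * Mw n δ →
      Feas n S b B sl (rc (cmb 1 s (wt l) δ)) (lift n S b sl d a (rc (cmb 1 s (wt l) δ))) ∧
      ∀ o < n, ∀ β, lift n S b sl d a (rc (cmb 1 s (wt l) δ)) o β = lift n S b sl d a l o β +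
        s * ((if tch b sl o β then 0 else δ o 3 + δ o 4 + 2 * δ o 5) -
          if o = d β then Mw n δ + Aw n sl δ (a β) else 0) := by
    rintro s ⟨q1, q2, q3⟩
    have nn : ∀ o < n, ∀ j < 6, 0 ≤ cmb 1 s (wt l) δ o j := fun o ho j hj => by
      simpa [cmb] using q1 o (mem_range.2 ho) j (mem_range.2 hj)
    have lc := fun o ho => loc l (cmb 1 s (wt l) δ) o (nn o ho) fun j hj e => by
      simp [cmb, e, hδ.supp o ho j hj e]
    have g1 : muT n (rc (cmb 1 s (wt l) δ)) = muT n l + s * Mw n δ := by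
      rw [← Mw_wt l, ← one_mul (Mw n (wt l)), ← Mw_cmb]
      exact sum_congr rfl fun o ho => (lc o (mem_range.1 ho)).1
    have g2 : ∀ c, alS n sl (rc (cmb 1 s (wt l) δ)) c = alS n sl l c + s * Aw n sl δ c := by
      intro c
      rw [← Aw_wt l, ← one_mul (Aw n sl (wt l) c), ← Aw_cmb]
      refine sum_congr rfl fun x hx => ?_
      have := (lc (x / 3) (by have := mem_range.1 hx; omega)).2 (x % 3) (by omega)
      rw [Nat.div_add_mod] at this
      rw [this]
    refine ⟨feas_lift P (fun x hx => ?_) ?_ (by linarith only [q3, g1]) fun c hc => ?_, fun o ho β => ?_⟩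
    · have := nn (x / 3) (by omega)
      have a0 := this 0 (by omega)
      have a1 := this 1 (by omega)
      have a2 := this 2 (by omega)
      have a3 := this 3 (by omega)
      have a4 := this 4 (by omega)
      have a5 := this 5 (by omega)
      unfold rc; split_ifs <;> linarith only [a0, a3, a4, a5, a1, a2]
    · have := Sw_cmb (n := n) 1 s (wt l) δ
      rw [Sw_wt, h.1.sum, h1] at this
      simpa [Sw] using this
    · have := q2 c (mem_range.2 hc)
      rw [g2, g2]; linarith only [this]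
    · simp only [lift, up, g1, g2, (lc o ho).1, mu_eq_wt l o, cmb]
      split_ifs <;> ring
  obtain ⟨f1, f2⟩ := f _ p1
  obtain ⟨f3, f4⟩ := f _ p2
  have := (h.2 _ _ _ _ f1 f3 (fun x _ => by rw [rc_cmb, rc_cmb, rc_wt]; ring)
    (fun o ho β hβ => by rw [f2 o ho, f4 o ho, hm o ho β hβ]; ring)).1 x hx
  rw [rc_cmb, rc_wt] at this
  have e : ε * rc δ x = 0 := by linarith only [this]
  exact (mul_eq_zero.1 e).resolve_left hε.ne'

theorem Ext.prop (P : Par n S b B sl) (h : Ext n S b B sl l m) (hmu : (S : ℝ)⁻¹ ≤ muT n l)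
    (ha : ∀ c < S, alS n sl l (a (c / b)) ≤ alS n sl l c)
    (hm : ∀ o < n, ∀ β < B, m o β = lift n S b sl d a l o β) {δ} (hδ : Adm n S b sl l a δ)
    (h2 : muT n l = (S : ℝ)⁻¹ → Mw n δ = (S : ℝ)⁻¹ * Sw n δ) (h3 : ∃ x < 3 * n, rc δ x ≠ 0)
    {x : ℕ} (hx : x < 3 * n) : l x = rc δ x / Sw n δ := by
  have k : ∀ x < 3 * n, rc δ x = Sw n δ * l x := fun x hx => by
    have := h.key P hmu ha hm (hδ.cmb adm_wt 1 (-Sw n δ))
      (by rw [Sw_cmb, Sw_wt, h.1.sum]; ring) (fun e => by rw [Mw_cmb, Mw_wt, h2 e, e]; ring) hx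
    rw [rc_cmb, rc_wt] at this
    linarith only [this]
  obtain ⟨y, hy, hy'⟩ := h3
  have : Sw n δ ≠ 0 := fun e => hy' (by rw [k y hy, e, zero_mul])
  rw [k x hx]; field_simp

/-- A direction whose vector is the indicator of a set inside the neighbourhood of a block. -/
structure Good (n S b B : ℕ) (sl : ℕ → ℕ) (l : ℕ → ℝ) (a : ℕ → ℕ) (δ : ℕ → ℕ → ℝ)
    (C : ℕ → Bool) (e : ℕ) : Prop where
  adm : Adm n S b sl l a δ
  ind : ∀ x < 3 * n, rc δ x = if C x then 1 else 0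
  loc : ∃ β < B, ∀ x < 3 * n, C x → tch b sl (x / 3) β
  ne : ∃ x < 3 * n, C x
  mw : Mw n δ = e
  le : e ≤ 2

def unitW (o j : ℕ) (o' j' : ℕ) : ℝ := if o' = o ∧ j' = j then 1 else 0

def memP (j k : ℕ) : Bool :=
  if k = 0 then j == 0 || j == 3 || j == 4 || j == 5
  else if k = 1 then j == 1 || j == 3 || j == 5 else j == 2 || j == 4 || j == 5

theorem memP_ne : ∀ j < 6, ∃ k < 3, memP j k := by decide

theorem memP_inj : ∀ j < 6, ∀ j' < 6, j ≠ j' → ∃ k < 3, memP j k ≠ memP j' k := by decide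

theorem good_unit (P : Par n S b B sl) {o j : ℕ} (ho : o < n) (hj : j < 6) (hw : wt l o j ≠ 0)
    (h : 3 ≤ j ∨ ∀ c < S, alS n sl l (a (c / b)) = 0) :
    Good n S b B sl l a (unitW o j) (fun x => decide (x / 3 = o) && memP j (x % 3))
      (if j < 3 then 0 else if j = 5 then 2 else 1) := by
  refine ⟨⟨fun o' _ j' _ e => ?_, fun c hc e => ?_⟩, fun x _ => ?_,
    ⟨sl (3 * o) / b, P.blk_lt _ (P.sl_lt _ (by omega)), fun x _ hx => ?_⟩, ?_, ?_, ?_⟩
  · refine if_neg fun g => hw ?_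
    rw [← g.1, ← g.2]; exact e
  · have z : ∀ c, (3 ≤ j ∨ alS n sl l c = 0) → Aw n sl (unitW o j) c = 0 := by
      intro c hc
      refine sum_eq_zero fun x hx => ?_
      split_ifs with g
      · refine if_neg fun g' => ?_
        rcases hc with hc | hc
        · omega
        · have := (sum_eq_zero_iff_of_nonneg fun x _ => by
            split_ifs; exacts [al_nonneg l x, le_rfl]).1 hc x hx
          rw [if_pos g, al_eq_wt, g'.1, g'.2] at this
          exact hw this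
      · rfl
    rw [z c (h.imp id fun h => e.trans (h c hc)), z _ (h.imp id fun h => h c hc)]
  · by_cases g : x / 3 = o
    · obtain g' | g' | g' : x % 3 = 0 ∨ x % 3 = 1 ∨ x % 3 = 2 := by omega
      all_goals
        rcases six_cases hj with rfl | rfl | rfl | rfl | rfl | rfl <;> simp [rc, unitW, memP, g, g']
    · simp [rc, unitW, g]
  · simp only [Bool.and_eq_true, decide_eq_true_eq] at hx
    rw [hx.1]; exact Or.inl rfl
  · obtain ⟨k, hk, hk'⟩ := memP_ne j hj
    refine ⟨3 * o + k, by omega, ?_⟩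
    have e1 : (3 * o + k) / 3 = o := by omega
    have e2 : (3 * o + k) % 3 = k := by omega
    simp [e1, e2, hk']
  · rw [Mw, sum_eq_single o]
    · rcases six_cases hj with rfl | rfl | rfl | rfl | rfl | rfl <;> simp [unitW]
    · intro o' _ g; simp [unitW, g]
    · intro g; exact absurd (mem_range.2 ho) g
  · split_ifs <;> omega

theorem good_block (P : Par n S b B sl) {β : ℕ} (hβ : β < B)
    (ha : ∀ c < S, a (c / b) < S ∧ a (c / b) / b = c / b)
    (h : ∀ c < S, c / b = β → alS n sl l c ≠ 0) :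
    ∃ δ C, Good n S b B sl l a δ C 0 ∧ ∀ x < 3 * n, C x → al l x ≠ 0 := by
  have : ∀ c, ∃ x, c < S → c / b = β → x < 3 * n ∧ sl x = c ∧ al l x ≠ 0 := by
    intro c
    by_cases g : c < S ∧ c / b = β
    · obtain ⟨x, hx, hx'⟩ := exists_ne_zero_of_sum_ne_zero (h c g.1 g.2)
      refine ⟨x, fun _ _ => ⟨mem_range.1 hx, ?_⟩⟩
      by_cases e : sl x = c
      · exact ⟨e, by simpa [e] using hx'⟩
      · simp [e] at hx'
    · exact ⟨0, fun g1 g2 => absurd ⟨g1, g2⟩ g⟩
  choose t ht using this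
  let C : ℕ → Bool := fun x => decide (sl x / b = β ∧ t (sl x) = x)
  have hC : ∀ x < 3 * n, C x → al l x ≠ 0 := fun x hx g => by
    have g' := of_decide_eq_true g
    have := (ht _ (P.sl_lt x hx) g'.1).2.2
    rwa [g'.2] at this
  let δ : ℕ → ℕ → ℝ := fun o j => if j < 3 ∧ C (3 * o + j) then 1 else 0
  have hδ : ∀ x, δ (x / 3) (x % 3) = if C x then 1 else 0 := fun x => by
    simp only [δ, Nat.div_add_mod, Nat.mod_lt x (show 0 < 3 by omega), true_and]
  have aw : ∀ c < S, Aw n sl δ c = if c / b = β then 1 else 0 := by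
    intro c hc
    simp only [Aw, hδ]
    split_ifs with g
    · obtain ⟨g1, g2, -⟩ := ht c hc g
      rw [sum_eq_single (t c)]
      · simp [C, g2, g]
      · intro x _ hne
        split_ifs with g3 g4
        · exact absurd (by simpa [g3] using (of_decide_eq_true g4).2.symm) hne
        · rfl
        · rfl
      · intro g; exact absurd (mem_range.2 g1) g
    · refine sum_eq_zero fun x _ => ?_
      split_ifs with g3 g4
      · exact absurd (by simpa [g3] using (of_decide_eq_true g4).1) g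
      · rfl
      · rfl
  refine ⟨δ, C, ⟨⟨fun o ho j _ e => ?_, fun c hc _ => ?_⟩, fun x _ => ?_,
    ⟨β, hβ, fun x _ hx => ?_⟩, ?_, ?_, by omega⟩, hC⟩
  · refine if_neg fun g => hC _ (by omega) g.2 ?_
    rwa [wt, if_pos g.1] at e
  · rw [aw c hc, aw _ (ha c hc).1, (ha c hc).2]
  · rw [← hδ]
    obtain g' | g' | g' : x % 3 = 0 ∨ x % 3 = 1 ∨ x % 3 = 2 := by omega
    all_goals simp [rc, δ, g']
  · have := (of_decide_eq_true hx).1
    obtain ⟨o, rfl | rfl | rfl⟩ := three_cases x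
    · rw [show 3 * o / 3 = o by omega]; exact Or.inl this
    · rw [show (3 * o + 1) / 3 = o by omega]; exact Or.inr (Or.inl this)
    · rw [show (3 * o + 2) / 3 = o by omega]; exact Or.inr (Or.inr this)
  · have e : β * b / b = β := Nat.mul_div_cancel _ P.hb
    obtain ⟨g1, g2, -⟩ := ht _ (P.blk_ne β hβ) e
    exact ⟨_, g1, by simp [C, g2, e]⟩
  · simp [Mw, δ]

theorem Good.sw {δ C e} (h : Good n S b B sl l a δ C e) : ∃ k ≤ 3 * n, Sw n δ = k := by
  refine ⟨((range (3 * n)).filter fun x => C x = true).card,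
    (card_filter_le _ _).trans (card_range _).le, ?_⟩
  rw [Sw, sum_congr rfl fun x hx => h.ind x (mem_range.1 hx), sum_boole]

/-- The shape of the extreme points when there is no solution. -/
theorem no_case (P : Par n S b B sl) (hno : ¬ ∃ T, Tr n S sl T) (h : Ext n S b B sl l m) :
    ∃ (C1 C2 : ℕ → Bool) (k1 k2 : ℤ) (d a : ℕ → ℕ),
      (∃ β < B, ∀ x < 3 * n, C1 x → tch b sl (x / 3) β) ∧
      (∃ β < B, ∀ x < 3 * n, C2 x → tch b sl (x / 3) β) ∧
      |k1| ≤ 2 * S + 3 * n ∧ |k2| ≤ 2 * S + 3 * n ∧ (∀ β < B, d β ≤ n ∧ a β < S) ∧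
      (∀ x < 3 * n, l x = ((if C1 x then (k1 : ℝ) else 0) + if C2 x then (k2 : ℝ) else 0) /
        ∑ y ∈ range (3 * n), ((if C1 y then (k1 : ℝ) else 0) + if C2 y then (k2 : ℝ) else 0)) ∧
      (∀ o < n, ∀ β < B, m o β = lift n S b sl d a l o β) ∧ 0 < muT n l := by
  obtain ⟨a, ha⟩ := exists_argmin P l
  obtain ⟨d, hd, hm⟩ := h.eq_lift ha
  have hmu := h.1.mu_ge P hno
  have hS : (0 : ℝ) < S := by exact_mod_cast P.hS
  have hpos : 0 < muT n l := lt_of_lt_of_le (by positivity) hmu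
  have ha' : ∀ c < S, alS n sl l (a (c / b)) ≤ alS n sl l c := fun c hc =>
    (ha _ (P.blk_lt c hc)).2.2 c hc rfl
  -- final step from two good directions
  have fin : ∀ {δ1 δ2 C1 C2 e1 e2} (k1 k2 : ℤ), Good n S b B sl l a δ1 C1 e1 →
      Good n S b B sl l a δ2 C2 e2 → |k1| ≤ 2 * S + 3 * n → |k2| ≤ 2 * S + 3 * n →
      (muT n l = (S : ℝ)⁻¹ → Mw n (cmb k1 k2 δ1 δ2) = (S : ℝ)⁻¹ * Sw n (cmb k1 k2 δ1 δ2)) →
      (∃ x < 3 * n, rc (cmb k1 k2 δ1 δ2) x ≠ 0) →
      ∃ (C1 C2 : ℕ → Bool) (k1 k2 : ℤ) (d a : ℕ → ℕ),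
      (∃ β < B, ∀ x < 3 * n, C1 x → tch b sl (x / 3) β) ∧
      (∃ β < B, ∀ x < 3 * n, C2 x → tch b sl (x / 3) β) ∧
      |k1| ≤ 2 * S + 3 * n ∧ |k2| ≤ 2 * S + 3 * n ∧ (∀ β < B, d β ≤ n ∧ a β < S) ∧
      (∀ x < 3 * n, l x = ((if C1 x then (k1 : ℝ) else 0) + if C2 x then (k2 : ℝ) else 0) /
        ∑ y ∈ range (3 * n), ((if C1 y then (k1 : ℝ) else 0) + if C2 y then (k2 : ℝ) else 0)) ∧
      (∀ o < n, ∀ β < B, m o β = lift n S b sl d a l o β) ∧ 0 < muT n l := by
    intro δ1 δ2 C1 C2 e1 e2 k1 k2 g1 g2 b1 b2 c1 c2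
    have e : ∀ x < 3 * n, rc (cmb k1 k2 δ1 δ2) x =
        (if C1 x then (k1 : ℝ) else 0) + if C2 x then (k2 : ℝ) else 0 := fun x hx => by
      rw [rc_cmb, g1.ind x hx, g2.ind x hx]; split_ifs <;> ring
    refine ⟨C1, C2, k1, k2, d, a, g1.loc, g2.loc, b1, b2, fun β hβ => ⟨hd β, (ha β hβ).1⟩,
      fun x hx => ?_, hm, hpos⟩
    rw [h.prop P hmu ha' hm (g1.adm.cmb g2.adm k1 k2) c1 c2 hx, e x hx, Sw,
      sum_congr rfl fun y hy => e y (mem_range.1 hy)]
  obtain ⟨o, ho, j, j3, j6, hw⟩ : ∃ o < n, ∃ j, 3 ≤ j ∧ j < 6 ∧ wt l o j ≠ 0 := by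
    by_contra hc
    push Not at hc
    refine hpos.ne' (sum_eq_zero fun o ho => ?_)
    have := hc o (mem_range.1 ho)
    rw [mu_eq_wt, this 3 (by omega) (by omega), this 4 (by omega) (by omega),
      this 5 (by omega) (by omega)]
    ring
  have g1 := good_unit (a := a) P ho j6 hw (Or.inl j3)
  generalize (if j < 3 then 0 else if j = 5 then 2 else 1) = e1 at g1
  have hS1 : (1 : ℤ) ≤ S := by exact_mod_cast P.hS
  by_cases hc : muT n l = (S : ℝ)⁻¹ → Mw n (unitW o j) = (S : ℝ)⁻¹ * Sw n (unitW o j)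
  · refine fin 1 0 g1 g1 (by simp; omega) (by simp; omega) (fun e => ?_) ?_
    · rw [Mw_cmb, Sw_cmb, hc e]; simp
    · obtain ⟨x, hx, hx'⟩ := g1.ne
      exact ⟨x, hx, by rw [rc_cmb, g1.ind x hx, if_pos hx']; simp⟩
  push Not at hc
  obtain ⟨hc1, hc2⟩ := hc
  obtain ⟨δ2, C2, e2, g2, x, hx, hne⟩ : ∃ δ2 C2 e2, Good n S b B sl l a δ2 C2 e2 ∧
      ∃ x < 3 * n, (decide (x / 3 = o) && memP j (x % 3)) ≠ C2 x := by
    by_cases hz : ∀ c < S, alS n sl l (a (c / b)) = 0
    · obtain ⟨o', ho', j', hj', hne, hw'⟩ :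
          ∃ o' < n, ∃ j' < 6, ¬ (o' = o ∧ j' = j) ∧ wt l o' j' ≠ 0 := by
        by_contra hc
        push Not at hc
        have z : ∀ o' < n, ∀ j' < 6, wt l o' j' = wt l o j * unitW o j o' j' := by
          intro o' ho' j' hj'
          unfold unitW
          split_ifs with g
          · rw [g.1, g.2, mul_one]
          · rw [hc o' ho' j' hj' (by tauto), mul_zero]
        have a1 : muT n l = wt l o j * Mw n (unitW o j) := by
          rw [← Mw_wt, Mw, Mw, mul_sum]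
          refine sum_congr rfl fun y hy => ?_
          have := z y (mem_range.1 hy)
          rw [this 3 (by omega), this 4 (by omega), this 5 (by omega)]; ring
        have a2 : 1 = wt l o j * Sw n (unitW o j) := by
          rw [← h.1.sum, ← Sw_wt, Sw, Sw, mul_sum]
          refine sum_congr rfl fun y hy => ?_
          have := z (y / 3) (by have := mem_range.1 hy; omega)
          unfold rc
          rw [this 0 (by omega), this 1 (by omega), this 2 (by omega), this 3 (by omega),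
            this 4 (by omega), this 5 (by omega)]
          split_ifs <;> ring
        refine hc2 (mul_left_cancel₀ hw ?_)
        rw [← a1, hc1, mul_left_comm, ← a2, mul_one]
      refine ⟨_, _, _, good_unit P ho' hj' hw' (Or.inr hz), ?_⟩
      by_cases g : o' = o
      · subst g
        obtain ⟨k, hk, hk'⟩ := memP_inj j j6 j' hj' fun e => hne ⟨rfl, e.symm⟩
        refine ⟨3 * o' + k, by omega, ?_⟩
        have e1 : (3 * o' + k) / 3 = o' := by omega
        have e2 : (3 * o' + k) % 3 = k := by omega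
        simpa [e1, e2] using hk'
      · obtain ⟨k, hk, hk'⟩ := memP_ne j j6
        refine ⟨3 * o + k, by omega, ?_⟩
        have e1 : (3 * o + k) / 3 = o := by omega
        have e2 : (3 * o + k) % 3 = k := by omega
        simp [e1, e2, hk', Ne.symm g]
    · push Not at hz
      obtain ⟨c, hc, hc'⟩ := hz
      obtain ⟨δ2, C2, g2, g3⟩ := good_block (a := a) (l := l) P (P.blk_lt c hc)
        (fun c hc => ⟨(ha _ (P.blk_lt c hc)).1, (ha _ (P.blk_lt c hc)).2.1⟩) fun c' h1 h2 e => by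
          have := ha' c' h1
          rw [h2, e] at this
          exact hc' (le_antisymm this (alS_nonneg _ _ _ _))
      refine ⟨δ2, C2, 0, g2, ?_⟩
      by_contra hcon
      push Not at hcon
      have e1 : (3 * o + 1) / 3 = o := by omega
      have e2 : (3 * o + 2) / 3 = o := by omega
      have e3 : (3 * o + 2) % 3 = 2 := by omega
      have a0 := g3 (3 * o) (by omega)
      have a1 := g3 (3 * o + 1) (by omega)
      have a2 := g3 (3 * o + 2) (by omega)
      rw [← hcon _ (by omega)] at a0 a1 a2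
      rw [al0] at a0
      rw [al1] at a1
      rw [al2] at a2
      have b1 := le_max_left (l (3 * o + 1)) (l (3 * o + 2))
      have b2 := le_max_right (l (3 * o + 1)) (l (3 * o + 2))
      obtain rfl | rfl | rfl : j = 3 ∨ j = 4 ∨ j = 5 := by omega
      all_goals
        simp [memP, e1, e2, e3] at a0 a1 a2
        linarith only [a0, a1, a2]
  obtain ⟨s1, t1, u1⟩ := g1.sw
  obtain ⟨s2, t2, u2⟩ := g2.sw
  have v1 := g1.le
  have v2 := g2.le
  have k2 : (s1 : ℝ) - S * e1 ≠ 0 := fun e => hc2 (by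
    rw [g1.mw, u1]; field_simp; linarith only [e])
  refine fin (S * e2 - s2) (s1 - S * e1) g1 g2 ?_ ?_ (fun _ => ?_) ?_
  · have : S * e2 ≤ 2 * S := by nlinarith only [v2]
    rw [abs_le]; constructor <;> linarith only [hS1, t2, ho, this, mul_nonneg_of_nonpos_of_nonpos (Mathlib.Tactic.Linarith.sub_nonpos_of_le (Mathlib.Tactic.Linarith.natCast_nonneg ℤ S)) (Mathlib.Tactic.Linarith.sub_nonpos_of_le (Mathlib.Tactic.Linarith.natCast_nonneg ℤ e2))]
  · have : S * e1 ≤ 2 * S := by nlinarith only [v1]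
    rw [abs_le]; constructor <;> linarith only [ho, this, hS1, t1, mul_nonneg_of_nonpos_of_nonpos (Mathlib.Tactic.Linarith.sub_nonpos_of_le (Mathlib.Tactic.Linarith.natCast_nonneg ℤ S)) (Mathlib.Tactic.Linarith.sub_nonpos_of_le (Mathlib.Tactic.Linarith.natCast_nonneg ℤ e1))]
  · rw [Mw_cmb, Sw_cmb, g1.mw, g2.mw, u1, u2]
    push_cast; field_simp; ring
  · by_cases k1 : (S : ℝ) * e2 - s2 = 0
    · obtain ⟨y, hy, hy'⟩ := g2.ne
      refine ⟨y, hy, ?_⟩
      rw [rc_cmb, g2.ind y hy, if_pos hy']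
      push_cast
      rw [k1]; simpa using k2
    · refine ⟨x, hx, ?_⟩
      rw [rc_cmb, g1.ind x hx, g2.ind x hx]
      push_cast
      cases hx2 : C2 x
      · rw [if_pos (by simpa [hx2] using hne)]; simpa using k1
      · rw [if_neg (by simpa [hx2] using hne)]; simpa using k2

end Pool.Agent.Work.MP_0bf9cb_lc.Eth
end
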