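import Pool.Agent.Work.MP_0bf9cb_lc.Time
import Pool.Agent.Work.MP_0bf9cb_lc.Eth.No

-- merged part: Pool.Agent.Work.MP_0bf9cb_lc.Eth.VTest
section
/-!
A polynomial-time test for being a vertex, and small tools for lists.
-/

namespace Pool.Agent.Work.MP_0bf9cb_lc.Eth

open Finset Filter Topology Pool.Agent.Lib.Poly

abbrev Rows := List (List ℚ × ℚ)

def Pol (D : ℕ) (R : Rows) : Set (Fin D → ℝ) := {x | ∀ r ∈ R, dot D r.1 x ≤ r.2}

def vec (D : ℕ) (z : List ℚ) : Fin D → ℝ := fun j => (ent z j : ℝ)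

def qd (D : ℕ) (r z : List ℚ) : ℚ := ∑ c ∈ range D, ent r c * ent z c

def tight (D : ℕ) (R : Rows) (z : List ℚ) : List (List ℚ) :=
  (R.filter fun r => decide (qd D r.1 z = r.2)).map fun r => r.1

def vtest (D : ℕ) (R : Rows) (z : List ℚ) : Bool :=
  (R.all fun r => decide (qd D r.1 z ≤ r.2)) &&
    (List.range D).all fun c => (List.range D).all fun c' =>
      decide (resC (rref D (tight D R z)) (mkVec D fun j => if j = c then 1 else 0) c' = 0)

theorem qd_cast (D : ℕ) (r z : List ℚ) : (qd D r z : ℝ) = dot D r (vec D z) := by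
  rw [qd, dot, ← Fin.sum_univ_eq_sum_range fun c => ent r c * ent z c]
  push_cast; rfl

theorem dot_add_smul (D : ℕ) (r : List ℚ) (x y : Fin D → ℝ) (s : ℝ) :
    dot D r (x + s • y) = dot D r x + s * dot D r y := by
  simp only [dot, Pi.add_apply, Pi.smul_apply, smul_eq_mul, mul_sum, ← sum_add_distrib]
  exact sum_congr rfl fun _ _ => by ring

theorem dot_unit {D : ℕ} (c : Fin D) (y : Fin D → ℝ) :
    dot D (mkVec D fun j => if j = c.val then 1 else 0) y = y c := by
  rw [dot, sum_eq_single c]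
  · simp [ent_mkVec _ c.2]
  · intro j _ h
    simp [ent_mkVec _ j.2, Fin.val_ne_of_ne h]
  · simp

theorem mem_ext_iff {D : ℕ} {P : Set (Fin D → ℝ)} (hP : Convex ℝ P) {x : Fin D → ℝ} :
    x ∈ P.extremePoints ℝ ↔ x ∈ P ∧ ∀ y, x + y ∈ P → x - y ∈ P → y = 0 := by
  refine ⟨fun h => ⟨h.1, fun y h1 h2 => ?_⟩, fun h => ⟨h.1, fun x1 h1 x2 h2 hs => ?_⟩⟩
  · have := h.2 h1 h2 ⟨1 / 2, 1 / 2, by norm_num, by norm_num, by norm_num, by module⟩
    simpa using this
  · obtain ⟨a, b, ha, hb, hab, rfl⟩ := hs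
    obtain rfl : a = 1 - b := by linarith
    have := h.2 (((1 - b) * b) • (x1 - x2)) (by
      convert hP h1 h2 (a := (1 - b) + (1 - b) * b) (b := b * b) (by positivity) (by positivity)
        (by ring) using 1
      module) (by
      convert hP h1 h2 (a := (1 - b) * (1 - b)) (b := b + (1 - b) * b) (by positivity)
        (by positivity) (by ring) using 1
      module)
    have e := sub_eq_zero.1 ((smul_eq_zero.1 this).resolve_left (mul_pos ha hb).ne')
    rw [← e]; module

theorem convex_Pol (D : ℕ) (R : Rows) : Convex ℝ (Pol D R) := by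
  intro x hx y hy a b ha hb hab r hr
  have h1 := hx r hr
  have h2 := hy r hr
  have e := dot_add_smul D r.1 0 x a
  have z : dot D r.1 0 = 0 := by simp [dot]
  rw [zero_add, z] at e
  rw [dot_add_smul, e]
  obtain rfl : a = 1 - b := by linarith
  nlinarith

theorem vtest_iff (D : ℕ) (R : Rows) (z : List ℚ) :
    vtest D R z = true ↔ vec D z ∈ (Pol D R).extremePoints ℝ := by
  have e1 : (∀ r ∈ R, qd D r.1 z ≤ r.2) ↔ vec D z ∈ Pol D R :=
    forall₂_congr fun r _ => by rw [← qd_cast]; exact Rat.cast_le.symm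
  have e2 : ∀ y, (∀ r ∈ tight D R z, dot D r y = 0) ↔
      ∀ r ∈ R, dot D r.1 (vec D z) = r.2 → dot D r.1 y = 0 := by
    intro y
    simp only [tight, List.mem_map, List.mem_filter, decide_eq_true_eq, ← qd_cast, Rat.cast_inj]
    exact ⟨fun h r a b => h _ ⟨r, ⟨a, b⟩, rfl⟩, fun h _ ⟨r, a, b⟩ => b ▸ h r a.1 a.2⟩
  simp only [vtest, Bool.and_eq_true, List.all_eq_true, decide_eq_true_eq, List.mem_range]
  rw [mem_ext_iff (convex_Pol D R), e1]
  refine and_congr_right fun hz => ⟨fun h y h1 h2 => ?_, fun h c _ c' hc' => ?_⟩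
  · have hy := (e2 y).2 fun r hr e => by
      have a1 := h1 r hr
      have a2 := h2 r hr
      have b1 := dot_add_smul D r.1 (vec D z) y 1
      have b2 := dot_add_smul D r.1 (vec D z) y (-1)
      rw [one_smul] at b1
      rw [neg_one_smul, ← sub_eq_add_neg] at b2
      linarith
    funext c
    rw [← dot_unit c y, dot_eq_res hy]
    exact sum_eq_zero fun c' _ => by rw [h c c.2 c' c'.2]; simp
  · obtain ⟨y, hy⟩ := exists_probe D (tight D R z) hc'
    have k := (e2 y).1 fun r hr => by rw [hy, res_eq_zero hr hc']; simp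
    have ev : ∀ᶠ s in 𝓝 (0 : ℝ), ∀ r ∈ R.toFinset, dot D r.1 (vec D z + s • y) ≤ r.2 := by
      refine (eventually_all_finset _).2 fun r hr => ?_
      have hr' := List.mem_toFinset.1 hr
      simp only [dot_add_smul]
      rcases (hz r hr').eq_or_lt with e | e
      · simp [k r hr' e, e]
      · have : Continuous fun s : ℝ => dot D r.1 (vec D z) + s * dot D r.1 y := by fun_prop
        have t := this.tendsto 0
        simp only [zero_mul, add_zero] at t
        exact (t.eventually (gt_mem_nhds e)).mono fun _ h => h.le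
    obtain ⟨ρ, hρ, ev⟩ := Metric.eventually_nhds_iff.1 ev
    have p1 := ev (y := ρ / 2) (by rw [Real.dist_eq, sub_zero, abs_of_pos (by linarith)]; linarith)
    have p2 := ev (y := -(ρ / 2))
      (by rw [Real.dist_eq, sub_zero, abs_neg, abs_of_pos (by linarith)]; linarith)
    have := h ((ρ / 2) • y) (fun r hr => p1 r (List.mem_toFinset.2 hr)) fun r hr => by
      have := p2 r (List.mem_toFinset.2 hr)
      rwa [neg_smul, ← sub_eq_add_neg] at this
    have y0 : y = 0 := (smul_eq_zero.1 this).resolve_left (by linarith)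
    have := hy (mkVec D fun j => if j = c then 1 else 0)
    rw [y0] at this
    have z : dot D (mkVec D fun j => if j = c then 1 else 0) 0 = 0 := by simp [dot]
    rw [z] at this
    exact_mod_cast this.symm

/-- Removing repetitions. -/
def nodups {β : Type} [DecidableEq β] (d : β) (l : List β) : List β :=
  ((List.range l.length).filter fun i => decide (¬ l.getD i d ∈ l.take i)).map fun i => l.getD i d

theorem nodups_spec {β : Type} [DecidableEq β] (d : β) (l : List β) :
    (nodups d l).Nodup ∧ ∀ x, x ∈ nodups d l ↔ x ∈ l := by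
  refine ⟨(List.nodup_range.filter _).map_on fun i hi j hj e => ?_, fun x => ⟨fun h => ?_, fun h => ?_⟩⟩
  · wlog h : i ≤ j generalizing i j
    · exact (this j hj i hi e.symm (by omega)).symm
    by_contra hne
    simp only [List.mem_filter, List.mem_range, decide_eq_true_eq] at hi hj
    refine hj.2 (e ▸ List.mem_take_iff_getElem.2 ⟨i, by omega, ?_⟩)
    rw [List.getD_eq_getElem _ _ hi.1]
  · obtain ⟨i, hi, rfl⟩ := List.mem_map.1 h
    rw [List.getD_eq_getElem _ _ (List.mem_range.1 (List.mem_filter.1 hi).1)]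
    exact List.getElem_mem _
  · have h1 := List.idxOf_lt_length_of_mem h
    have e : l.getD (l.idxOf x) d = x := by
      rw [List.getD_eq_getElem _ _ h1]; exact List.getElem_idxOf h1
    refine List.mem_map.2 ⟨l.idxOf x, List.mem_filter.2 ⟨List.mem_range.2 h1, ?_⟩, e⟩
    rw [e, decide_eq_true_eq]
    intro hm
    have := (List.mem_take_iff_idxOf_lt h).1 hm
    omega

/-- All subsets of a list. -/
def subs (X : List ℕ) : List (List ℕ) :=
  (tups 1 X.length).map fun τ =>
    ((List.range X.length).filter fun i => decide (τ.getD i 0 = 1)).map fun i => X.getD i 0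

theorem exists_subs (X : List ℕ) (C : ℕ → Bool) : ∃ σ ∈ subs X, ∀ x, x ∈ σ ↔ x ∈ X ∧ C x := by
  refine ⟨_, List.mem_map.2 ⟨X.map fun x => if C x then 1 else 0, mem_tups.2 ⟨by simp, ?_⟩, rfl⟩,
    fun x => ?_⟩
  · intro a ha
    obtain ⟨y, -, rfl⟩ := List.mem_map.1 ha
    split_ifs <;> omega
  · simp only [List.mem_map, List.mem_filter, List.mem_range, decide_eq_true_eq]
    constructor
    · rintro ⟨i, ⟨h1, h2⟩, rfl⟩
      rw [List.getD_eq_getElem _ _ (by simpa using h1)] at h2
      rw [List.getD_eq_getElem _ _ h1]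
      exact ⟨List.getElem_mem _, by simpa using h2⟩
    · rintro ⟨h1, h2⟩
      obtain ⟨i, hi, rfl⟩ := List.getElem_of_mem h1
      refine ⟨i, ⟨hi, ?_⟩, List.getD_eq_getElem _ _ hi⟩
      rw [List.getD_eq_getElem _ _ (by simpa using hi)]
      simpa using h2

section pt
variable {α : Type} [Enc α]

@[fun_prop] theorem pt_sumr {N : α → ℕ} {f : α → ℕ → ℚ} (hN : PT N)
    (hf : PT fun p : α × ℕ => f p.1 p.2) : PT fun x => ∑ i ∈ range (N x), f x i :=
  PT.of_eq (f := fun x => ((List.range (N x)).map (f x)).sum) (by fun_prop) fun x => by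
    induction N x with
    | zero => simp
    | succ n ih => rw [List.range_succ, List.map_append, List.sum_append, ih, sum_range_succ]; simp

@[fun_prop] theorem pt_qmin {f g : α → ℚ} (hf : PT f) (hg : PT g) :
    PT fun x => min (f x) (g x) :=
  PT.of_eq (f := fun x => if f x ≤ g x then f x else g x) (by fun_prop) fun _ => by rw [min_def]

@[fun_prop] theorem pt_qmax {f g : α → ℚ} (hf : PT f) (hg : PT g) :
    PT fun x => max (f x) (g x) :=
  PT.of_eq (f := fun x => if f x ≤ g x then g x else f x) (by fun_prop) fun _ => by rw [max_def]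

@[fun_prop] theorem pt_qd {D : α → ℕ} {r z : α → List ℚ} (hD : PT D) (hr : PT r) (hz : PT z) :
    PT fun x => qd (D x) (r x) (z x) := by
  unfold qd; fun_prop

@[fun_prop] theorem pt_tight {D : α → ℕ} {R : α → Rows} {z : α → List ℚ} (hD : PT D) (hR : PT R)
    (hz : PT z) : PT fun x => tight (D x) (R x) (z x) := by
  unfold tight; fun_prop

@[fun_prop] theorem pt_vtest {D : α → ℕ} {R : α → Rows} {z : α → List ℚ} (hD : PT D) (hR : PT R)
    (hz : PT z) : PT fun x => vtest (D x) (R x) (z x) := by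
  unfold vtest; fun_prop

@[fun_prop] theorem pt_nodups {β : Type} [Enc β] [DecidableEq β] (d : β) {l : α → List β}
    (hl : PT l) : PT fun x => nodups d (l x) := by
  unfold nodups; fun_prop

theorem pt_subs {X : α → List ℕ} (hX : PT X) (b : ℕ → ℕ) (hb : IsPoly b)
    (h : ∀ a, 2 ^ (X a).length ≤ b (sz a)) : PT fun a => subs (X a) := by
  have := pt_tups (N := fun _ : α => 1) (k := fun a => (X a).length) (by fun_prop) (by fun_prop)
    b hb h
  unfold subs; fun_prop

theorem pt_log {f : α → ℕ} (h : PT f) : PT fun x => Nat.log 2 (f x) := by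
  have e : ∀ n, sz (Bin.mk n) = Nat.size n := fun n =>
    le_antisymm (Bin.sz_le (Nat.lt_size_self n)) (Nat.size_le.2 (Bin.lt_two_pow ⟨n⟩))
  have h1 := (PT.toBin h).toSz
  refine PT.of_eq (f := fun x => sz (Bin.mk (f x)) - 1) (by fun_prop) fun x => ?_
  rw [e]
  generalize f x = n
  by_cases h : n = 0
  · simp [h]
  · have h1 := Nat.size_le.2 (Nat.lt_pow_succ_log_self (b := 2) (by omega) n)
    have h2 := Nat.lt_size.2 (Nat.pow_log_le_self 2 h)
    omega

end pt

end Pool.Agent.Work.MP_0bf9cb_lc.Eth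
end

-- merged part: Pool.Agent.Work.MP_0bf9cb_lc.Eth.Main
section
-- merged part: Pool.Agent.Work.MP_0bf9cb_lc.Eth.Rows
section
/-!
The inequality description of the polytope.
-/

namespace Pool.Agent.Work.MP_0bf9cb_lc.Eth

open Finset Pool.Agent.Lib.Poly

def row (n B : ℕ) (f : ℕ → ℚ) (g : ℕ → ℕ → ℚ) : List ℚ :=
  mkVec (3 * n + n * B) fun c => if c < 3 * n then f c else g ((c - 3 * n) / B) ((c - 3 * n) % B)

def xt {D : ℕ} (x : Fin D → ℝ) (c : ℕ) : ℝ := if h : c < D then x ⟨c, h⟩ else 0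

def mm (n B : ℕ) {D : ℕ} (x : Fin D → ℝ) (o β : ℕ) : ℝ := xt x (3 * n + (o * B + β))

def pk (n B : ℕ) (l : ℕ → ℝ) (m : ℕ → ℕ → ℝ) : Fin (3 * n + n * B) → ℝ :=
  fun c => if c.val < 3 * n then l c else m ((c - 3 * n) / B) ((c - 3 * n) % B)

/-- The options of the components that touch a block. -/
def Xl (n b : ℕ) (sl : ℕ → ℕ) (β : ℕ) : List ℕ :=
  (List.range (3 * n)).filter fun x => decide (tch b sl (x / 3) β)

def coef (b : ℕ) (sl : ℕ → ℕ) (a : ℕ) (σ : List ℕ) (x : ℕ) : ℚ :=
  if tch b sl (x / 3) (a / b) then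
    (if x % 3 = 0 then (if x + 1 ∈ σ then 0 else 1) + (if x + 2 ∈ σ then 0 else 1) +
      (if sl x = a ∧ x + 1 ∈ σ ∧ x + 2 ∈ σ then 1 else 0)
    else if x ∈ σ ∨ sl x = a then 1 else 0)
  else 0

def rows (n S b B : ℕ) (sl : ℕ → ℕ) (Sb : List (List (List ℕ))) : Rows :=
  ((List.range (3 * n)).map fun x =>
    (row n B (fun c => if c = x then -1 else 0) (fun _ _ => 0), 0)) ++
  ([(row n B (fun _ => 1) (fun _ _ => 0), 1), (row n B (fun _ => -1) (fun _ _ => 0), -1)] ++
  (((List.range n).flatMap fun o => (List.range B).flatMap fun β =>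
    [3 * o, 3 * o + 1].flatMap fun p => [3 * o, 3 * o + 2].map fun q =>
      (row n B (fun c => if tch b sl o β then 0 else
          (if c = p then -1 else 0) + (if c = q then -1 else 0))
        (fun o' β' => if o' = o ∧ β' = β then 1 else 0), 0)) ++
  ((List.range S).flatMap fun a => (Sb.getD (a / b) []).map fun σ =>
    (row n B (fun c => -coef b sl a σ c) (fun _ β' => if β' = a / b then -1 else 0),
      -(S : ℚ)⁻¹))))

variable {n S b B : ℕ} {sl : ℕ → ℕ}

theorem idx_lt {o β : ℕ} (ho : o < n) (hβ : β < B) : o * B + β < n * B := by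
  have : (o + 1) * B ≤ n * B := Nat.mul_le_mul_right _ ho
  rw [Nat.add_mul] at this
  omega

theorem idx_div {o β : ℕ} (hβ : β < B) : (o * B + β) / B = o ∧ (o * B + β) % B = β := by
  constructor
  · rw [Nat.add_comm, Nat.add_mul_div_right _ _ (by omega), Nat.div_eq_of_lt hβ, Nat.zero_add]
  · rw [Nat.add_comm, Nat.add_mul_mod_self_right, Nat.mod_eq_of_lt hβ]

theorem sum_range_mul' (f : ℕ → ℝ) (n B : ℕ) :
    ∑ c ∈ range (n * B), f c = ∑ o ∈ range n, ∑ β ∈ range B, f (o * B + β) := by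
  induction n with
  | zero => simp
  | succ n ih => rw [Nat.succ_mul, sum_range_add, ih, sum_range_succ]

theorem sum_three (f : ℕ → ℝ) (n : ℕ) : ∑ x ∈ range (3 * n), f x =
    ∑ o ∈ range n, (f (3 * o) + f (3 * o + 1) + f (3 * o + 2)) := by
  induction n with
  | zero => simp
  | succ n ih => rw [Nat.mul_succ, sum_range_succ, sum_range_succ, sum_range_succ, ih,
      sum_range_succ]; ring

theorem ent_row1 (f : ℕ → ℚ) (g : ℕ → ℕ → ℚ) {c : ℕ} (hc : c < 3 * n) :
    ent (row n B f g) c = f c := by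
  rw [row, ent_mkVec _ (by omega), if_pos hc]

theorem ent_row2 (f : ℕ → ℚ) (g : ℕ → ℕ → ℚ) {o β : ℕ} (ho : o < n) (hβ : β < B) :
    ent (row n B f g) (3 * n + (o * B + β)) = g o β := by
  have := idx_lt ho hβ
  rw [row, ent_mkVec _ (by omega), if_neg (by omega), Nat.add_sub_cancel_left, (idx_div hβ).1,
    (idx_div hβ).2]

theorem dot_row (f : ℕ → ℚ) (g : ℕ → ℕ → ℚ) (x : Fin (3 * n + n * B) → ℝ) :
    dot _ (row n B f g) x = ∑ c ∈ range (3 * n), f c * xt x c +
      ∑ o ∈ range n, ∑ β ∈ range B, g o β * mm n B x o β := by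
  have : dot _ (row n B f g) x = ∑ c ∈ range (3 * n + n * B), ent (row n B f g) c * xt x c := by
    rw [dot, ← Fin.sum_univ_eq_sum_range fun c => (ent (row n B f g) c : ℝ) * xt x c]
    exact sum_congr rfl fun c _ => by rw [xt, dif_pos c.2]
  rw [this, sum_range_add, sum_range_mul' _ n B]
  congr 1
  · exact sum_congr rfl fun c hc => by rw [ent_row1 _ _ (mem_range.1 hc)]
  · exact sum_congr rfl fun o ho => sum_congr rfl fun β hβ => by
      rw [ent_row2 _ _ (mem_range.1 ho) (mem_range.1 hβ), mm]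

theorem xt_pk (l : ℕ → ℝ) (m : ℕ → ℕ → ℝ) {c : ℕ} (hc : c < 3 * n) : xt (pk n B l m) c = l c := by
  rw [xt, dif_pos (by omega), pk, if_pos hc]

theorem mm_pk (l : ℕ → ℝ) (m : ℕ → ℕ → ℝ) {o β : ℕ} (ho : o < n) (hβ : β < B) :
    mm n B (pk n B l m) o β = m o β := by
  have := idx_lt ho hβ
  rw [mm, xt, dif_pos (by omega), pk, if_neg (by simp)]
  simp only [Nat.add_sub_cancel_left, (idx_div hβ).1, (idx_div hβ).2]

theorem ext_pt {x y : Fin (3 * n + n * B) → ℝ} (h1 : ∀ c < 3 * n, xt x c = xt y c)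
    (h2 : ∀ o < n, ∀ β < B, mm n B x o β = mm n B y o β) : x = y := by
  funext c
  have e : xt x c = xt y c := by
    by_cases hc : c.val < 3 * n
    · exact h1 c hc
    · have hB : 0 < B := Nat.pos_of_ne_zero fun h => by have := c.2; simp [h] at this; omega
      have := h2 ((c - 3 * n) / B) ((Nat.div_lt_iff_lt_mul hB).2 (by have := c.2; omega))
        ((c - 3 * n) % B) (Nat.mod_lt _ hB)
      rwa [mm, mm, Nat.div_add_mod', show 3 * n + (c.val - 3 * n) = c by omega] at this
  simpa [xt] using e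

section congr
variable {K : Type} [Field K] [LinearOrder K] {l l' : ℕ → K}

theorem mu_congr (h : ∀ x < 3 * n, l x = l' x) {o : ℕ} (ho : o < n) : mu l o = mu l' o := by
  rw [mu, mu, h _ (by omega), h (3 * o + 1) (by omega), h (3 * o + 2) (by omega)]

theorem muT_congr (h : ∀ x < 3 * n, l x = l' x) : muT n l = muT n l' :=
  sum_congr rfl fun _ ho => mu_congr h (mem_range.1 ho)

theorem alS_congr (h : ∀ x < 3 * n, l x = l' x) (a : ℕ) : alS n sl l a = alS n sl l' a := by
  refine sum_congr rfl fun x hx => ?_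
  have := mem_range.1 hx
  have e : al l x = al l' x := by
    obtain ⟨o, rfl | rfl | rfl⟩ := three_cases x
    · rw [al0, al0, h _ this, h (3 * o + 1) (by omega), h (3 * o + 2) (by omega)]
    · rw [al1, al1, h _ this, h (3 * o) (by omega)]
    · rw [al2, al2, h _ this, h (3 * o) (by omega)]
  rw [e]

theorem up_congr (h : ∀ x < 3 * n, l x = l' x) {o : ℕ} (ho : o < n) (β : ℕ) :
    up b sl l o β = up b sl l' o β := by
  rw [up, up, mu_congr h ho]

theorem lift_congr (h : ∀ x < 3 * n, l x = l' x) {d a d' a' : ℕ → ℕ} {o β : ℕ} (ho : o < n)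
    (hd : d β = d' β) (ha : a β = a' β) :
    lift n S b sl d a l o β = lift n S b sl d' a' l' o β := by
  rw [lift, lift, up_congr h ho, muT_congr h, alS_congr h, hd, ha]

end congr

theorem Feas.congr (P : Par n S b B sl) {l l' m m'} (h : Feas n S b B sl l m)
    (h1 : ∀ x < 3 * n, l x = l' x) (h2 : ∀ o < n, ∀ β < B, m o β = m' o β) :
    Feas n S b B sl l' m' := by
  refine ⟨fun x hx => h1 x hx ▸ h.nn x hx, ?_, fun o ho β hβ => ?_, fun a ha => ?_⟩
  · rw [← h.sum]; exact sum_congr rfl fun x hx => (h1 x (mem_range.1 hx)).symm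
  · rw [← h2 o ho β hβ, ← up_congr h1 ho]; exact h.le o ho β hβ
  · rw [← muT_congr h1, ← alS_congr h1]
    refine le_of_eq_of_le (sum_congr rfl fun o ho => ?_) (h.blk a ha)
    rw [h2 o (mem_range.1 ho) _ (P.blk_lt a ha), up_congr h1 (mem_range.1 ho)]

theorem loc_coef (y p q : ℝ) (A0 A1 A2 : Prop) [Decidable A0] [Decidable A1] [Decidable A2]
    (h0 : 0 ≤ y) (h1 : 0 ≤ p) (h2 : 0 ≤ q) (n1 : A0 → ¬ A1) (n2 : A0 → ¬ A2) :
    (∀ (t1 t2 : Prop) [Decidable t1] [Decidable t2], min y p + min y q +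
      ((if A0 then max 0 (y - max p q) else 0) + (if A1 then max 0 (p - y) else 0) +
        (if A2 then max 0 (q - y) else 0)) ≤
      ((if t1 then 0 else 1) + (if t2 then 0 else 1) + if A0 ∧ t1 ∧ t2 then 1 else 0) * y +
        (if t1 ∨ A1 then 1 else 0) * p + (if t2 ∨ A2 then 1 else 0) * q) ∧
    ∃ t1 t2 : Bool, min y p + min y q +
      ((if A0 then max 0 (y - max p q) else 0) + (if A1 then max 0 (p - y) else 0) +
        (if A2 then max 0 (q - y) else 0)) =
      ((if t1 then 0 else 1) + (if t2 then 0 else 1) + if A0 ∧ t1 ∧ t2 then 1 else 0) * y +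
        (if t1 ∨ A1 then 1 else 0) * p + (if t2 ∨ A2 then 1 else 0) * q := by
  constructor
  · intro t1 t2 _ _
    by_cases a0 : A0 <;> by_cases a1 : A1 <;> by_cases a2 : A2 <;> by_cases b1 : t1 <;>
      by_cases b2 : t2 <;> simp only [a0, a1, a2, b1, b2, not_true, imp_false, if_true, if_false,
        and_self, and_true, and_false, true_or, or_true, or_self, min_def, max_def]
        at n1 n2 ⊢ <;> split_ifs <;> linarith
  · by_cases a0 : A0
    · refine ⟨decide (p ≤ y ∧ p ≤ q), decide (q ≤ y ∧ q < p), ?_⟩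
      simp only [a0, n1 a0, n2 a0, if_true, if_false, or_false, true_and, decide_eq_true_eq,
        min_def, max_def]
      by_cases c1 : p ≤ y <;> by_cases c2 : q ≤ y <;> by_cases c3 : p ≤ q <;>
        simp only [c1, c2, c3, ← not_le, not_true, not_false_eq_true, if_true, if_false, and_self,
          and_true, and_false] <;> split_ifs <;> linarith
    · refine ⟨decide (p ≤ y ∨ A1), decide (q ≤ y ∨ A2), ?_⟩
      by_cases a1 : A1 <;> by_cases a2 : A2 <;> by_cases c1 : p ≤ y <;> by_cases c2 : q ≤ y <;>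
        simp only [a0, a1, a2, c1, c2, if_true, if_false, false_and, or_true, or_false,
          or_self, decide_eq_true_eq, min_def, max_def] <;> split_ifs <;> linarith

theorem coef_sum (P : Par n S b B sl) {l : ℕ → ℝ} (h : ∀ x < 3 * n, 0 ≤ l x) (a : ℕ) :
    (∀ σ, ∑ o ∈ range n, (mu l o - up b sl l o (a / b)) + alS n sl l a ≤
      ∑ x ∈ range (3 * n), coef b sl a σ x * l x) ∧
    ∃ σ ∈ subs (Xl n b sl (a / b)), ∑ o ∈ range n, (mu l o - up b sl l o (a / b)) + alS n sl l a =
      ∑ x ∈ range (3 * n), coef b sl a σ x * l x := by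
  have e1 : ∀ o, (3 * o + 1) / 3 = o := fun o => by omega
  have e2 : ∀ o, (3 * o + 2) / 3 = o := fun o => by omega
  have e3 : ∀ o, (3 * o + 2) % 3 = 2 := fun o => by omega
  have e4 : ∀ o, (3 * o + 1) % 3 = 1 := fun o => by omega
  have lc := fun o (ho : o < n) => loc_coef (l (3 * o)) (l (3 * o + 1)) (l (3 * o + 2))
    (sl (3 * o) = a) (sl (3 * o + 1) = a) (sl (3 * o + 2) = a) (h _ (by omega)) (h _ (by omega))
    (h _ (by omega)) (fun g g' => P.ne1 o ho (g.trans g'.symm))
    (fun g g' => P.ne2 o ho (g.trans g'.symm))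
  have nt : ∀ o, ¬ tch b sl o (a / b) →
      sl (3 * o) ≠ a ∧ sl (3 * o + 1) ≠ a ∧ sl (3 * o + 2) ≠ a := fun o g =>
    ⟨fun e => g (Or.inl (by rw [e])), fun e => g (Or.inr (Or.inl (by rw [e]))),
      fun e => g (Or.inr (Or.inr (by rw [e])))⟩
  constructor
  · intro σ
    rw [alS, sum_three, sum_three, ← sum_add_distrib]
    refine sum_le_sum fun o ho => ?_
    by_cases g : tch b sl o (a / b)
    · have := (lc o (mem_range.1 ho)).1 (3 * o + 1 ∈ σ) (3 * o + 2 ∈ σ)
      simpa [coef, up, mu, g, e1, e2, e3, e4, al0, al1, al2, apply_ite (Rat.cast : ℚ → ℝ)]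
        using this
    · simp [coef, up, g, e1, e2, nt o g]
  · choose! t1 t2 ht using fun o ho => (lc o ho).2
    obtain ⟨σ, h1, h2⟩ := exists_subs (Xl n b sl (a / b))
      fun x => if x % 3 = 1 then t1 (x / 3) else t2 (x / 3)
    refine ⟨σ, h1, ?_⟩
    rw [alS, sum_three, sum_three, ← sum_add_distrib]
    refine sum_congr rfl fun o ho => ?_
    have ho' := mem_range.1 ho
    by_cases g : tch b sl o (a / b)
    · have m1 : 3 * o + 1 ∈ σ ↔ t1 o := by
        rw [h2]; simp [Xl, e1, e4, g]; omega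
      have m2 : 3 * o + 2 ∈ σ ↔ t2 o := by
        rw [h2]; simp [Xl, e2, e3, g]; omega
      have := ht o ho'
      simpa [coef, up, mu, g, e1, e2, e3, e4, al0, al1, al2, apply_ite (Rat.cast : ℚ → ℝ), m1, m2]
        using this
    · simp [coef, up, g, e1, e2, nt o g]

theorem mem_Pol (P : Par n S b B sl) {Sb : List (List (List ℕ))}
    (hSb : ∀ β < B, Sb.getD β [] = subs (Xl n b sl β)) (x : Fin (3 * n + n * B) → ℝ) :
    x ∈ Pol _ (rows n S b B sl Sb) ↔ Feas n S b B sl (xt x) (mm n B x) := by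
  have r1 : ∀ y < 3 * n, dot _ (row n B (fun c => if c = y then -1 else 0) (fun _ _ => 0)) x =
      -xt x y := fun y hy => by
    simp [dot_row, apply_ite (Rat.cast : ℚ → ℝ), hy]
  have r2 : dot _ (row n B (fun _ => 1) (fun _ _ => 0)) x = ∑ c ∈ range (3 * n), xt x c := by
    simp [dot_row]
  have r3 : dot _ (row n B (fun _ => -1) (fun _ _ => 0)) x = -∑ c ∈ range (3 * n), xt x c := by
    simp [dot_row]
  have r4 : ∀ o < n, ∀ β < B, ∀ p < 3 * n, ∀ q < 3 * n, dot _ (row n B
      (fun c => if tch b sl o β then 0 else (if c = p then -1 else 0) + (if c = q then -1 else 0))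
      (fun o' β' => if o' = o ∧ β' = β then 1 else 0)) x =
      mm n B x o β - if tch b sl o β then 0 else xt x p + xt x q := by
    intro o ho β hβ p hp q hq
    rw [dot_row, sum_eq_single (s := range n) o (fun o' _ g => by simp [g]) (by simp [ho]),
      sum_eq_single (s := range B) β (fun β' _ g => by simp [g]) (by simp [hβ])]
    by_cases g : tch b sl o β
    · simp only [g, if_true]; simp
    · simp only [g, if_false]
      simp [apply_ite (Rat.cast : ℚ → ℝ), add_mul, sum_add_distrib, hp, hq]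
      ring
  have r5 : ∀ a < S, ∀ σ, dot _ (row n B (fun c => -coef b sl a σ c)
      (fun _ β' => if β' = a / b then -1 else 0)) x =
      -(∑ c ∈ range (3 * n), coef b sl a σ c * xt x c + ∑ o ∈ range n, mm n B x o (a / b)) := by
    intro a ha σ
    simp [dot_row, apply_ite (Rat.cast : ℚ → ℝ), P.blk_lt a ha]
    ring
  simp only [Pol, rows, Set.mem_ofPred_eq, List.forall_mem_append, List.forall_mem_map,
    List.forall_mem_flatMap, List.forall_mem_cons, List.mem_range, List.not_mem_nil, false_imp_iff,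
    implies_true, and_true, r2, r3]
  push_cast
  constructor
  · rintro ⟨h1, ⟨h2, h3⟩, h4, h5⟩
    have nn : ∀ y < 3 * n, 0 ≤ xt x y := fun y hy => by
      have := h1 y hy
      rw [r1 y hy] at this
      linarith
    refine ⟨nn, by linarith, fun o ho β hβ => ?_, fun a ha => ?_⟩
    · obtain ⟨⟨a1, a2⟩, a3, a4⟩ := h4 o ho β hβ
      rw [r4 o ho β hβ _ (by omega) _ (by omega)] at a1 a2 a3 a4
      unfold up mu
      simp only [min_def]
      split_ifs at a1 a2 a3 a4 ⊢ <;> linarith
    · obtain ⟨σ, g1, g2⟩ := (coef_sum P nn a).2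
      have := h5 a ha σ (by rw [hSb _ (P.blk_lt a ha)]; exact g1)
      rw [r5 a ha, ← g2] at this
      simp only [sum_sub_distrib, muT] at this ⊢
      linarith
  · intro h
    refine ⟨fun y hy => ?_, ⟨h.sum.le, by rw [h.sum]⟩, fun o ho β hβ => ?_, fun a ha σ _ => ?_⟩
    · rw [r1 y hy]; linarith [h.nn y hy]
    · have := h.le o ho β hβ
      have a1 := min_le_left (xt x (3 * o)) (xt x (3 * o + 1))
      have a2 := min_le_right (xt x (3 * o)) (xt x (3 * o + 1))
      have a3 := min_le_left (xt x (3 * o)) (xt x (3 * o + 2))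
      have a4 := min_le_right (xt x (3 * o)) (xt x (3 * o + 2))
      unfold up mu at this
      refine ⟨⟨?_, ?_⟩, ?_, ?_⟩ <;> rw [r4 o ho β hβ _ (by omega) _ (by omega)] <;>
        split_ifs at this ⊢ <;> linarith
    · have a1 := (coef_sum P h.nn a).1 σ
      have a2 := h.blk a ha
      rw [r5 a ha]
      simp only [sum_sub_distrib, muT] at a1 a2
      linarith

theorem ext_Pol (P : Par n S b B sl) {Sb : List (List (List ℕ))}
    (hSb : ∀ β < B, Sb.getD β [] = subs (Xl n b sl β)) (x : Fin (3 * n + n * B) → ℝ) :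
    x ∈ (Pol _ (rows n S b B sl Sb)).extremePoints ℝ ↔ Ext n S b B sl (xt x) (mm n B x) := by
  constructor
  · intro h
    refine ⟨(mem_Pol P hSb x).1 h.1, fun l1 m1 l2 m2 f1 f2 hl hm => ?_⟩
    have k : ∀ {l m}, Feas n S b B sl l m → pk n B l m ∈ Pol _ (rows n S b B sl Sb) := fun f =>
      (mem_Pol P hSb _).2 (f.congr P (fun _ hx => (xt_pk _ _ hx).symm)
        fun _ ho _ hβ => (mm_pk _ _ ho hβ).symm)
    have lin : ∀ (u v : Fin (3 * n + n * B) → ℝ) c,
        xt ((1 / 2 : ℝ) • u + (1 / 2 : ℝ) • v) c = (xt u c + xt v c) / 2 := by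
      intro u v c
      unfold xt; split_ifs
      · simp; ring
      · simp
    have := h.2 (k f1) (k f2) ⟨1 / 2, 1 / 2, by norm_num, by norm_num, by norm_num,
      ext_pt (fun c hc => by rw [lin, xt_pk _ _ hc, xt_pk _ _ hc, hl c hc]; ring)
        fun o ho β hβ => by
          rw [mm, lin, ← mm, ← mm, mm_pk _ _ ho hβ, mm_pk _ _ ho hβ, hm o ho β hβ]; ring⟩
    rw [← this]
    exact ⟨fun c hc => (xt_pk _ _ hc).symm, fun o ho β hβ => (mm_pk _ _ ho hβ).symm⟩
  · intro h
    refine (mem_ext_iff (convex_Pol _ _)).2 ⟨(mem_Pol P hSb x).2 h.1, fun y h1 h2 => ?_⟩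
    have lin : ∀ c, xt (x + y) c + xt (x - y) c = 2 * xt x c := by
      intro c
      unfold xt; split_ifs
      · simp; ring
      · simp
    have := h.2 _ _ _ _ ((mem_Pol P hSb _).1 h1) ((mem_Pol P hSb _).1 h2) (fun c _ => lin c)
      fun o _ β _ => lin _
    simpa using ext_pt this.1 this.2

theorem bdd_Pol (P : Par n S b B sl) {Sb : List (List (List ℕ))}
    (hSb : ∀ β < B, Sb.getD β [] = subs (Xl n b sl β)) :
    Bornology.IsBounded (Pol (3 * n + n * B) (rows n S b B sl Sb)) := by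
  refine isBounded_iff_forall_norm_le.2 ⟨2 * n + 3, fun x hx => ?_⟩
  have h := (mem_Pol P hSb x).1 hx
  have e : x = pk n B (xt x) (mm n B x) :=
    ext_pt (fun c hc => (xt_pk _ _ hc).symm) fun o ho β hβ => (mm_pk _ _ ho hβ).symm
  have h7 : (0 : ℝ) ≤ n := by positivity
  refine (pi_norm_le_iff_of_nonneg (by positivity)).2 fun c => ?_
  rw [e, Real.norm_eq_abs, pk]
  split_ifs with hc
  · rw [abs_of_nonneg (h.nn _ hc)]; linarith [h.le_one hc]
  · have hB : 0 < B := Nat.pos_of_ne_zero fun h => by have := c.2; simp [h] at this; omega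
    exact h.bound P ((Nat.div_lt_iff_lt_mul hB).2 (by have := c.2; omega)) (Nat.mod_lt _ hB)

end Pool.Agent.Work.MP_0bf9cb_lc.Eth
end

-- merged part: Pool.Agent.Work.MP_0bf9cb_lc.Eth.Cand
section
/-!
The list of known vertices.
-/

namespace Pool.Agent.Work.MP_0bf9cb_lc.Eth

open Finset Pool.Agent.Lib.Poly

def candv (K : ℕ) (C1 C2 : List ℕ) (i1 i2 x : ℕ) : ℚ :=
  (if x ∈ C1 then (i1 : ℚ) - K else 0) + if x ∈ C2 then (i2 : ℚ) - K else 0

def candl (n K : ℕ) (C1 C2 : List ℕ) (i1 i2 : ℕ) : List ℚ :=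
  mkVec (3 * n) fun x => candv K C1 C2 i1 i2 x / ∑ y ∈ range (3 * n), candv K C1 C2 i1 i2 y

def cand (n S b B : ℕ) (sl : ℕ → ℕ) (l : List ℚ) (ρ : List ℕ) : List ℚ :=
  row n B (ent l) (lift n S b sl (fun β => ρ.getD β 0 / S) (fun β => ρ.getD β 0 % S) (ent l))

def candls (n K : ℕ) (Cs : List (List ℕ)) : List (List ℚ) :=
  Cs.flatMap fun C1 => Cs.flatMap fun C2 => (List.range (2 * K + 1)).flatMap fun i1 =>
    (List.range (2 * K + 1)).map fun i2 => candl n K C1 C2 i1 i2

def cands (n S b B : ℕ) (sl : ℕ → ℕ) (Sb : List (List (List ℕ))) (Tp : List (List ℕ)) :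
    List (List ℚ) :=
  (candls n (2 * S + 3 * n) Sb.flatten).flatMap fun l => Tp.map fun ρ => cand n S b B sl l ρ

def verts (n S b B : ℕ) (sl : ℕ → ℕ) (Sb : List (List (List ℕ))) (Tp : List (List ℕ)) :
    List (List ℚ) :=
  nodups [] ((cands n S b B sl Sb Tp).filter fun z =>
    vtest (3 * n + n * B) (rows n S b B sl Sb) z && decide (0 < muT n (ent z)))

variable {n S b B : ℕ} {sl : ℕ → ℕ}

theorem cast_mu (l : ℕ → ℚ) (o : ℕ) : ((mu l o : ℚ) : ℝ) = mu (fun x => (l x : ℝ)) o := by
  simp [mu]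

theorem cast_muT (l : ℕ → ℚ) : ((muT n l : ℚ) : ℝ) = muT n fun x => (l x : ℝ) := by
  simp [muT, cast_mu]

theorem cast_lift (d a : ℕ → ℕ) (l : ℕ → ℚ) (o β : ℕ) :
    ((lift n S b sl d a l o β : ℚ) : ℝ) = lift n S b sl d a (fun x => (l x : ℝ)) o β := by
  simp [lift, up, alS, al, apply_ite (Rat.cast : ℚ → ℝ), cast_mu, cast_muT]

theorem xt_vec {D c : ℕ} (z : List ℚ) (hc : c < D) : xt (vec D z) c = ent z c := by
  rw [xt, dif_pos hc, vec]

theorem mem_flatten_of_getD {Sb : List (List (List ℕ))} {β : ℕ} {σ : List ℕ}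
    (h : σ ∈ Sb.getD β []) : σ ∈ Sb.flatten := by
  by_cases hβ : β < Sb.length
  · rw [List.getD_eq_getElem _ _ hβ] at h
    exact List.mem_flatten.2 ⟨_, List.getElem_mem _, h⟩
  · rw [List.getD_eq_default _ _ (by omega)] at h
    cases h

theorem main_geo (P : Par n S b B sl) {Sb : List (List (List ℕ))} {Tp : List (List ℕ)}
    (hSb : ∀ β < B, Sb.getD β [] = subs (Xl n b sl β))
    (hTp : ∀ ρ : List ℕ, ρ.length = B → (∀ a ∈ ρ, a ≤ (n + 1) * S) → ρ ∈ Tp) :
    (verts n S b B sl Sb Tp).Nodup ∧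
    (∀ z ∈ verts n S b B sl Sb Tp, z.length = 3 * n + n * B ∧
      vec _ z ∈ (Pol (3 * n + n * B) (rows n S b B sl Sb)).extremePoints ℝ) ∧
    ((∃ x ∈ (Pol (3 * n + n * B) (rows n S b B sl Sb)).extremePoints ℝ,
      ∀ z ∈ verts n S b B sl Sb Tp, x ≠ vec _ z) ↔ ∃ T, Tr n S sl T) := by
  have mv : ∀ z, z ∈ verts n S b B sl Sb Tp ↔ z ∈ cands n S b B sl Sb Tp ∧
      vec _ z ∈ (Pol (3 * n + n * B) (rows n S b B sl Sb)).extremePoints ℝ ∧
      0 < muT n (xt (vec (3 * n + n * B) z)) := by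
    intro z
    rw [verts, (nodups_spec _ _).2, List.mem_filter, Bool.and_eq_true, vtest_iff,
      decide_eq_true_eq, muT_congr (l' := fun x => (ent z x : ℝ)) fun x hx => xt_vec z (by omega),
      ← cast_muT, Rat.cast_pos]
  refine ⟨(nodups_spec _ _).1, fun z hz => ⟨?_, ((mv z).1 hz).2.1⟩, fun ⟨x, hx, hx'⟩ => ?_,
    fun ⟨T, hT⟩ => ?_⟩
  · have := ((mv z).1 hz).1
    simp only [cands, List.mem_flatMap, List.mem_map] at this
    obtain ⟨l, -, ρ, -, rfl⟩ := this
    simp [cand, row, mkVec]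
  · by_contra hno
    obtain ⟨C1, C2, k1, k2, d, a, ⟨β1, b1, c1⟩, ⟨β2, b2, c2⟩, g1, g2, g3, g4, g5, g6⟩ :=
      no_case P hno ((ext_Pol P hSb x).1 hx)
    obtain ⟨σ1, s1, t1⟩ := exists_subs (Xl n b sl β1) C1
    obtain ⟨σ2, s2, t2⟩ := exists_subs (Xl n b sl β2) C2
    have u1 : ∀ y < 3 * n, y ∈ σ1 ↔ C1 y := fun y hy => by
      rw [t1, and_iff_right_iff_imp]
      exact fun h => List.mem_filter.2 ⟨List.mem_range.2 hy, decide_eq_true (c1 y hy h)⟩
    have u2 : ∀ y < 3 * n, y ∈ σ2 ↔ C2 y := fun y hy => by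
      rw [t2, and_iff_right_iff_imp]
      exact fun h => List.mem_filter.2 ⟨List.mem_range.2 hy, decide_eq_true (c2 y hy h)⟩
    rw [abs_le] at g1 g2
    obtain ⟨i1, e1⟩ : ∃ i : ℕ, k1 = i - (2 * S + 3 * n : ℕ) :=
      ⟨(k1 + (2 * S + 3 * n : ℕ)).toNat, by omega⟩
    obtain ⟨i2, e2⟩ : ∃ i : ℕ, k2 = i - (2 * S + 3 * n : ℕ) :=
      ⟨(k2 + (2 * S + 3 * n : ℕ)).toNat, by omega⟩
    have cv : ∀ y < 3 * n, (candv (2 * S + 3 * n) σ1 σ2 i1 i2 y : ℝ) =
        (if C1 y then (k1 : ℝ) else 0) + if C2 y then (k2 : ℝ) else 0 := fun y hy => by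
      simp [candv, u1 y hy, u2 y hy, e1, e2, apply_ite (Rat.cast : ℚ → ℝ)]
    have el : ∀ y < 3 * n, xt x y = ent (candl n (2 * S + 3 * n) σ1 σ2 i1 i2) y := fun y hy => by
      rw [g4 y hy, candl, ent_mkVec _ hy, Rat.cast_div, cv y hy, Rat.cast_sum,
        sum_congr rfl fun y hy => cv y (mem_range.1 hy)]
    have hS := P.hS
    let ρ : List ℕ := (List.range B).map fun β => d β * S + a β
    have eρ : ∀ β < B, ρ.getD β 0 = d β * S + a β := fun β hβ => by
      simp [ρ, List.getD_eq_getElem?_getD, hβ]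
    have ex : x = vec _ (cand n S b B sl (candl n (2 * S + 3 * n) σ1 σ2 i1 i2) ρ) := by
      refine ext_pt (fun c hc => ?_) fun o ho β hβ => ?_
      · rw [xt_vec _ (by omega), cand, ent_row1 _ _ hc, el c hc]
      · have := idx_lt ho hβ
        rw [g5 o ho β hβ, mm, xt_vec _ (by omega), cand, ent_row2 _ _ ho hβ, cast_lift]
        refine lift_congr el ho ?_ ?_
        · rw [eρ β hβ, (idx_div (g3 β hβ).2).1]
        · rw [eρ β hβ, (idx_div (g3 β hβ).2).2]
    refine hx' _ ((mv _).2 ⟨?_, ex ▸ hx, ex ▸ g6⟩) ex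
    simp only [cands, candls, List.mem_flatMap, List.mem_map, List.mem_range]
    refine ⟨_, ⟨σ1, mem_flatten_of_getD (hSb β1 b1 ▸ s1), σ2, mem_flatten_of_getD (hSb β2 b2 ▸ s2),
      i1, by omega, i2, by omega, rfl⟩, ρ, hTp ρ (by simp [ρ]) fun r hr => ?_, rfl⟩
    obtain ⟨β, hβ, rfl⟩ := List.mem_map.1 hr
    have := g3 β (List.mem_range.1 hβ)
    have := Nat.mul_le_mul_right S this.1
    rw [Nat.add_mul]
    omega
  · obtain ⟨l, h1, h2⟩ := yes_case P hT
    have e1 : ∀ c < 3 * n, xt (pk n B l fun _ _ => 0) c = l c := fun c hc => xt_pk _ _ hc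
    have e2 : ∀ o < n, ∀ β < B, mm n B (pk n B l fun _ _ => 0) o β = 0 :=
      fun o ho β hβ => mm_pk _ _ ho hβ
    refine ⟨pk n B l fun _ _ => 0, (ext_Pol P hSb _).2 ⟨h1.1.congr P (fun c hc => (e1 c hc).symm)
      fun o ho β hβ => (e2 o ho β hβ).symm, fun l1 m1 l2 m2 f1 f2 a1 a2 => ?_⟩, fun z hz e => ?_⟩
    · have := h1.2 l1 m1 l2 m2 f1 f2 (fun c hc => by rw [a1 c hc, e1 c hc])
        fun o ho β hβ => by rw [a2 o ho β hβ, e2 o ho β hβ]
      exact ⟨fun c hc => by rw [this.1 c hc, e1 c hc],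
        fun o ho β hβ => by rw [this.2 o ho β hβ, e2 o ho β hβ]⟩
    · have := ((mv z).1 hz).2.2
      rw [← e, muT_congr e1, h2] at this
      exact lt_irrefl _ this

theorem length_rows {Sb : List (List (List ℕ))} :
    ∀ r ∈ rows n S b B sl Sb, r.1.length = 3 * n + n * B := by
  simp only [rows, List.forall_mem_append, List.forall_mem_map, List.forall_mem_flatMap,
    List.forall_mem_cons]
  simp [row, mkVec]

section pt
variable {α : Type} [Enc α] {n S b B : α → ℕ} {sl : α → ℕ → ℕ}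

@[fun_prop] theorem pt_row {f : α → ℕ → ℚ} {g : α → ℕ → ℕ → ℚ} (hn : PT n) (hB : PT B)
    (hf : PT fun p : α × ℕ => f p.1 p.2) (hg : PT fun p : α × ℕ × ℕ => g p.1 p.2.1 p.2.2) :
    PT fun x => row (n x) (B x) (f x) (g x) := by
  have := hg.comp (g := fun p : α × ℕ =>
    (p.1, (p.2 - 3 * n p.1) / B p.1, (p.2 - 3 * n p.1) % B p.1)) (by fun_prop)
  unfold row; fun_prop

@[fun_prop] theorem pt_mu {l : α → List ℚ} {o : α → ℕ} (hl : PT l) (ho : PT o) :
    PT fun x => mu (ent (l x)) (o x) := by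
  unfold mu; fun_prop

@[fun_prop] theorem pt_muT {l : α → List ℚ} (hn : PT n) (hl : PT l) :
    PT fun x => muT (n x) (ent (l x)) := by
  unfold muT; fun_prop

@[fun_prop] theorem pt_al {l : α → List ℚ} {o : α → ℕ} (hl : PT l) (ho : PT o) :
    PT fun x => al (ent (l x)) (o x) := by
  unfold al; fun_prop

theorem pt_Xl (hn : PT n) (hb : PT b) (hsl : PT fun p : α × ℕ => sl p.1 p.2) {β : α → ℕ}
    (hβ : PT β) : PT fun x => Xl (n x) (b x) (sl x) (β x) := by
  unfold Xl tch; fun_prop

theorem pt_rows (hn : PT n) (hS : PT S) (hb : PT b) (hB : PT B)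
    (hsl : PT fun p : α × ℕ => sl p.1 p.2) {Sb : α → List (List (List ℕ))} (hSb : PT Sb) :
    PT fun x => rows (n x) (S x) (b x) (B x) (sl x) (Sb x) := by
  unfold rows coef tch; fun_prop

theorem pt_candls (hn : PT n) {K : α → ℕ} (hK : PT K) {Cs : α → List (List ℕ)} (hC : PT Cs) :
    PT fun x => candls (n x) (K x) (Cs x) := by
  unfold candls candl candv; fun_prop

theorem pt_verts (hn : PT n) (hS : PT S) (hb : PT b) (hB : PT B)
    (hsl : PT fun p : α × ℕ => sl p.1 p.2) {Sb : α → List (List (List ℕ))} (hSb : PT Sb)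
    {Tp : α → List (List ℕ)} (hTp : PT Tp) :
    PT fun x => verts (n x) (S x) (b x) (B x) (sl x) (Sb x) (Tp x) := by
  have h1 := pt_rows hn hS hb hB hsl hSb
  have h2 := pt_candls (K := fun x => 2 * S x + 3 * n x) (Cs := fun x => (Sb x).flatten) hn
    (by fun_prop) (by fun_prop)
  have h3 : PT fun x => cands (n x) (S x) (b x) (B x) (sl x) (Sb x) (Tp x) := by
    unfold cands cand lift up alS tch; fun_prop
  have h4 : PT fun p : α × List ℚ => rows (n p.1) (S p.1) (b p.1) (B p.1) (sl p.1) (Sb p.1) :=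
    h1.comp PT.fst'
  exact pt_nodups _ (PT.filter (PT.and (pt_vtest (by fun_prop) h4 (by fun_prop)) (by fun_prop)) h3)

end pt

end Pool.Agent.Work.MP_0bf9cb_lc.Eth
end

-- merged part: Pool.Agent.Work.MP_0bf9cb_lc.Eth.Sat
section
/-!
From satisfiability to independent transversals.
-/

namespace Pool.Agent.Work.MP_0bf9cb_lc.Eth

open Finset

variable {V : Type} [DecidableEq V]

/-- The cyclic successor among the occurrences of the same variable. -/
def nxt (n : ℕ) (var : ℕ → V) (o : ℕ) : ℕ :=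
  (((List.range n).filter fun j => decide (o < j ∧ var j = var o)) ++
    (List.range n).filter fun j => decide (var j = var o)).headD 0

/-- The slot of an option. -/
def slot (n : ℕ) (var : ℕ → V) (sgn : ℕ → Bool) (cl : ℕ → ℕ) (x : ℕ) : ℕ :=
  if x % 3 = 1 then n + cl (x / 3)
  else if decide (x % 3 = 0) = sgn (x / 3) then x / 3 else nxt n var (x / 3)

theorem head_filter (n : ℕ) (p : ℕ → Bool) (r : List ℕ) (h : ∃ j < n, p j = true) :
    ((List.range n).filter p ++ r).headD 0 < n ∧ p (((List.range n).filter p ++ r).headD 0) = true ∧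
      ∀ j, p j = true → ((List.range n).filter p ++ r).headD 0 ≤ j := by
  obtain ⟨j, hj, hp⟩ := h
  cases e : (List.range n).find? p with
  | none => exact absurd hp (List.find?_eq_none.1 e j (List.mem_range.2 hj))
  | some k =>
    have : ((List.range n).filter p ++ r).headD 0 = k := by
      rw [List.headD_eq_head?_getD, List.head?_append, List.head?_filter, e]; rfl
    rw [this]
    obtain ⟨h1, h2, h3⟩ := List.find?_range_eq_some.1 e
    refine ⟨List.mem_range.1 h2, h1, fun i hi => not_lt.1 fun hlt => ?_⟩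
    simpa [hi] using h3 i hlt

variable {n : ℕ} {var : ℕ → V} {sgn : ℕ → Bool} {cl : ℕ → ℕ}

theorem nxt_spec {o : ℕ} (ho : o < n) : nxt n var o < n ∧ var (nxt n var o) = var o ∧
    ((o < nxt n var o ∧ ∀ j, o < j → var j = var o → nxt n var o ≤ j) ∨
      ((∀ j < n, o < j → var j ≠ var o) ∧ ∀ j, var j = var o → nxt n var o ≤ j)) := by
  by_cases h : ∃ j < n, decide (o < j ∧ var j = var o) = true
  · obtain ⟨h1, h2, h3⟩ := head_filter n _ ((List.range n).filter fun j => decide (var j = var o)) h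
    have h2' := of_decide_eq_true h2
    exact ⟨h1, h2'.2, Or.inl ⟨h2'.1, fun j a b => h3 j (decide_eq_true ⟨a, b⟩)⟩⟩
  · have e : ((List.range n).filter fun j => decide (o < j ∧ var j = var o)) = [] :=
      List.filter_eq_nil_iff.2 fun j hj hp => h ⟨j, List.mem_range.1 hj, hp⟩
    obtain ⟨h1, h2, h3⟩ := head_filter n (fun j => decide (var j = var o)) [] ⟨o, ho, by simp⟩
    rw [List.append_nil] at h1 h2 h3
    unfold nxt
    rw [e, List.nil_append]
    exact ⟨h1, of_decide_eq_true h2, Or.inr ⟨fun j a b c => h ⟨j, a, decide_eq_true ⟨b, c⟩⟩,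
      fun j a => h3 j (decide_eq_true a)⟩⟩

theorem nxt_ne {o : ℕ} (ho : o < n) (h : ∃ o' < n, o' ≠ o ∧ var o' = var o) :
    nxt n var o ≠ o := by
  obtain ⟨o', h1, h2, h3⟩ := h
  rcases (nxt_spec (var := var) ho).2.2 with g | g
  · omega
  · have := g.1 o' h1
    have := g.2 o' h3
    by_cases o < o' <;> first | tauto | omega

theorem nxt_inj {o o' : ℕ} (ho : o < n) (ho' : o' < n) (h : nxt n var o = nxt n var o') :
    o = o' := by
  wlog hlt : o ≤ o' generalizing o o'
  · exact (this ho' ho h.symm (by omega)).symm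
  by_contra hne
  obtain ⟨-, a1, a2⟩ := nxt_spec (var := var) ho
  obtain ⟨-, b1, b2⟩ := nxt_spec (var := var) ho'
  have e : var o' = var o := by rw [← a1, ← b1, h]
  rcases a2 with g | g
  · have := g.2 o' (by omega) e
    rcases b2 with g' | g'
    · omega
    · have := g'.2 o e.symm
      omega
  · exact g.1 o' ho' (by omega) e

theorem nxt_surj {j : ℕ} (hj : j < n) : ∃ o < n, nxt n var o = j := by
  have := surjOn_of_injOn_of_card_le (s := range n) (t := range n) (nxt n var)
    (fun o ho => mem_coe.2 (mem_range.2 (nxt_spec (mem_range.1 (mem_coe.1 ho))).1))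
    (fun o ho o' ho' h => nxt_inj (mem_range.1 (mem_coe.1 ho)) (mem_range.1 (mem_coe.1 ho')) h)
    le_rfl (mem_coe.2 (mem_range.2 hj))
  obtain ⟨o, ho, e⟩ := this
  exact ⟨o, mem_range.1 (mem_coe.1 ho), e⟩

theorem nxt_closed {Y : ℕ → Prop} (hY : ∀ o < n, Y o → Y (nxt n var o)) {o j : ℕ} (ho : o < n)
    (hj : j < n) (e : var j = var o) (h : Y o) : Y j := by
  have A : ∀ k o, o < n → Y o → var j = var o → o ≤ j → j - o ≤ k → Y j := by
    intro k
    induction k with
    | zero => intro o _ h _ _ _; rwa [show j = o by omega]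
    | succ k ih =>
      intro o ho h e h1 h2
      rcases h1.eq_or_lt with rfl | h1
      · exact h
      · obtain ⟨a0, a1, g | g⟩ := nxt_spec (var := var) ho
        · exact ih _ a0 (hY o ho h) (e.trans a1.symm) (g.2 j h1 e) (by omega)
        · exact absurd e (g.1 j hj h1)
  have B : ∀ k o, o < n → Y o → var j = var o → n - o ≤ k → Y j := by
    intro k
    induction k with
    | zero => intro o _ _ _ _; omega
    | succ k ih =>
      intro o ho h e h2
      obtain ⟨a0, a1, g | g⟩ := nxt_spec (var := var) ho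
      · exact ih _ a0 (hY o ho h) (e.trans a1.symm) (by omega)
      · exact A _ _ a0 (hY o ho h) (e.trans a1.symm) (g.2 j e) le_rfl
  exact B _ o ho h e le_rfl

theorem slot0 (o : ℕ) : slot n var sgn cl (3 * o) = if sgn o then o else nxt n var o := by
  simp [slot]

theorem slot1 (o : ℕ) : slot n var sgn cl (3 * o + 1) = n + cl o := by
  have : (3 * o + 1) / 3 = o := by omega
  simp [slot, this]

theorem slot2 (o : ℕ) : slot n var sgn cl (3 * o + 2) = if sgn o then nxt n var o else o := by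
  have : (3 * o + 2) / 3 = o := by omega
  have h : (3 * o + 2) % 3 = 2 := by omega
  cases h' : sgn o <;> simp [slot, this, h, h']

theorem par_slot {k b B : ℕ} (hk : 0 < k) (hb : 0 < b) (hB : B = (n + k + b - 1) / b)
    (hcl : ∀ o < n, cl o < k) (h2 : ∀ o < n, ∃ o' < n, o' ≠ o ∧ var o' = var o) :
    Par n (n + k) b B (slot n var sgn cl) := by
  have e := Nat.div_add_mod (n + k + b - 1) b
  have e' := Nat.mod_lt (n + k + b - 1) hb
  rw [← hB] at e
  refine ⟨by omega, hb, fun x hx => ?_, fun o ho => ?_, fun o ho => ?_, fun a ha => ?_,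
    fun β hβ => ?_⟩
  · have := hcl (x / 3) (by omega)
    have := (nxt_spec (var := var) (show x / 3 < n by omega)).1
    unfold slot; split_ifs <;> omega
  · have := (nxt_spec (var := var) ho).1
    rw [slot0, slot1]; split_ifs <;> omega
  · have := nxt_ne ho (h2 o ho)
    rw [slot0, slot2]; split_ifs <;> omega
  · rw [Nat.div_lt_iff_lt_mul hb, mul_comm]; omega
  · have : (β + 1) * b ≤ B * b := Nat.mul_le_mul_right _ hβ
    rw [Nat.add_mul, mul_comm B] at this
    omega

theorem tr_iff {k : ℕ} : (∃ T, Tr n (n + k) (slot n var sgn cl) T) ↔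
    ∃ a : V → Bool, ∀ i < k, ∃ o < n, cl o = i ∧ a (var o) = sgn o := by
  classical
  constructor
  · rintro ⟨T, h1, h2⟩
    let F : ℕ → Prop := fun o => T (if sgn o then 3 * o else 3 * o + 2)
    let G : ℕ → Prop := fun o => T (if sgn o then 3 * o + 2 else 3 * o)
    have fg : ∀ o < n, F o → ¬ G o := fun o ho => by
      have := h2 o ho
      simp only [F, G]; split_ifs <;> tauto
    have sl : ∀ o < n, F (nxt n var o) ∨ G o := by
      intro o ho
      have a0 := (nxt_spec (var := var) ho).1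
      obtain ⟨x, x1, x2, x3⟩ := h1 (nxt n var o) (by omega)
      obtain ⟨p, rfl | rfl | rfl⟩ := three_cases x
      · rw [slot0] at x3
        split_ifs at x3 with g
        · left; rw [← x3]; simpa [F, g] using x2
        · right; rw [← nxt_inj (show p < n by omega) ho x3]; simpa [G, g] using x2
      · rw [slot1] at x3; omega
      · rw [slot2] at x3
        split_ifs at x3 with g
        · right; rw [← nxt_inj (show p < n by omega) ho x3]; simpa [G, g] using x2
        · left; rw [← x3]; simpa [F, g] using x2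
    have cl : ∀ o < n, F o → F (nxt n var o) := fun o ho h => (sl o ho).resolve_right (fg o ho h)
    refine ⟨fun v => decide (¬ ∃ o < n, var o = v ∧ F o), fun i hi => ?_⟩
    obtain ⟨x, x1, x2, x3⟩ := h1 (n + i) (by omega)
    obtain ⟨p, rfl | rfl | rfl⟩ := three_cases x
    · have := (nxt_spec (var := var) (show p < n by omega)).1
      rw [slot0] at x3; split_ifs at x3 <;> omega
    · rw [slot1] at x3
      have hp : p < n := by omega
      have c : ¬ T (3 * p) := fun h => (h2 p hp h).1 x2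
      refine ⟨p, hp, by omega, ?_⟩
      cases g : sgn p
      · refine decide_eq_false (not_not.2 ⟨_, (nxt_spec hp).1, (nxt_spec hp).2.1,
          (sl p hp).resolve_right ?_⟩)
        simpa [G, g] using c
      · refine decide_eq_true fun ⟨o, ho, e, f⟩ => c ?_
        simpa [F, g] using nxt_closed cl ho hp e.symm f
    · have := (nxt_spec (var := var) (show p < n by omega)).1
      rw [slot2] at x3; split_ifs at x3 <;> omega
  · rintro ⟨a, ha⟩
    refine ⟨fun x => if x % 3 = 0 then a (var (x / 3)) ≠ sgn (x / 3) else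
      a (var (x / 3)) = sgn (x / 3), fun c hc => ?_, fun o _ => ?_⟩
    · have e1 : ∀ o, (3 * o + 1) / 3 = o := fun o => by omega
      have e2 : ∀ o, (3 * o + 2) / 3 = o := fun o => by omega
      have e3 : ∀ o, (3 * o + 2) % 3 = 2 := fun o => by omega
      by_cases g : c < n
      · obtain ⟨o, ho, e⟩ := nxt_surj (var := var) g
        have v : var o = var c := by rw [← e, (nxt_spec (var := var) ho).2.1]
        cases g1 : a (var c)
        · cases g2 : sgn c
          · exact ⟨3 * c + 2, by omega, by simp [e2, e3, g1, g2], by simp [slot2, g2]⟩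
          · exact ⟨3 * c, by omega, by simp [g1, g2], by simp [slot0, g2]⟩
        · cases g2 : sgn o
          · exact ⟨3 * o, by omega, by simp [v, g1, g2], by simp [slot0, g2, e]⟩
          · exact ⟨3 * o + 2, by omega, by simp [e2, e3, v, g1, g2], by simp [slot2, g2, e]⟩
      · obtain ⟨o, ho, e, e'⟩ := ha (c - n) (by omega)
        exact ⟨3 * o + 1, by omega, by simp [e1, e'], by rw [slot1]; omega⟩
    · have e1 : (3 * o + 1) / 3 = o := by omega
      have e2 : (3 * o + 2) / 3 = o := by omega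
      have e3 : (3 * o + 2) % 3 = 2 := by omega
      simp [e1, e2, e3]

end Pool.Agent.Work.MP_0bf9cb_lc.Eth
end

-- merged part: Pool.Agent.Work.MP_0bf9cb_lc.Eth.Main
section
/-!
The reduction from 3-SAT to the vertex enumeration problem, and its running time.
-/

namespace Pool.Agent.Work.MP_0bf9cb_lc.Eth

open Finset Pool.Agent.Lib.Poly Turing

theorem length_Xl {V : Type} [DecidableEq V] (n b β : ℕ) (var : ℕ → V) (sgn : ℕ → Bool)
    (hb : 0 < b) : (Xl n b (slot n var sgn fun o => o / 3) β).length ≤ 9 * b := by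
  set sl := slot n var sgn fun o => o / 3 with hsl
  have h1 : ((range (3 * n)).filter fun x => sl x / b = β).card ≤ 3 * (Ico (β * b) (β * b + b)).card := by
    refine card_le_mul_card_image_of_maps_to (f := sl) (fun x hx => ?_) 3 fun a _ => ?_
    · have e := Nat.div_add_mod (sl x) b
      have := Nat.mod_lt (sl x) hb
      rw [(mem_filter.1 hx).2, mul_comm] at e
      rw [mem_Ico]; omega
    · by_cases ha : a < n
      · obtain ⟨o, ho, e⟩ := nxt_surj (var := var) ha
        refine (card_le_card (t := {if sgn a then 3 * a else 3 * a + 2,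
          if sgn o then 3 * o + 2 else 3 * o, 0}) fun x hx => ?_).trans card_le_three
        simp only [mem_filter, mem_range] at hx
        obtain ⟨⟨x1, -⟩, x2⟩ := hx
        obtain ⟨p, rfl | rfl | rfl⟩ := three_cases x
        · rw [hsl, slot0] at x2
          split_ifs at x2 with g
          · simp [← x2, g]
          · simp [← nxt_inj (show p < n by omega) ho (x2.trans e.symm), g]
        · rw [hsl, slot1] at x2; omega
        · rw [hsl, slot2] at x2
          split_ifs at x2 with g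
          · simp [← nxt_inj (show p < n by omega) ho (x2.trans e.symm), g]
          · simp [← x2, g]
      · refine (card_le_card (t := {9 * (a - n) + 1, 9 * (a - n) + 4, 9 * (a - n) + 7})
          fun x hx => ?_).trans card_le_three
        simp only [mem_filter, mem_range] at hx
        obtain ⟨⟨x1, -⟩, x2⟩ := hx
        obtain ⟨p, rfl | rfl | rfl⟩ := three_cases x
        · have := (nxt_spec (var := var) (show p < n by omega)).1
          rw [hsl, slot0] at x2; split_ifs at x2 <;> omega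
        · rw [hsl, slot1] at x2
          simp only [mem_insert, mem_singleton]; omega
        · have := (nxt_spec (var := var) (show p < n by omega)).1
          rw [hsl, slot2] at x2; split_ifs at x2 <;> omega
  have h2 := card_biUnion_le_card_mul ((range (3 * n)).filter fun x => sl x / b = β)
    (fun y => ({3 * (y / 3), 3 * (y / 3) + 1, 3 * (y / 3) + 2} : Finset ℕ)) 3 fun _ _ => card_le_three
  rw [Xl, ← List.toFinset_card_of_nodup (List.nodup_range.filter _)]
  refine (card_le_card fun x hx => ?_).trans (h2.trans (by rw [Nat.card_Ico] at h1; omega))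
  simp only [List.mem_toFinset, List.mem_filter, List.mem_range, decide_eq_true_eq] at hx
  simp only [mem_biUnion, mem_filter, mem_range, mem_insert, mem_singleton]
  rcases hx.2 with g | g | g
  · exact ⟨_, ⟨by omega, g⟩, by omega⟩
  · exact ⟨_, ⟨by omega, g⟩, by omega⟩
  · exact ⟨_, ⟨by omega, g⟩, by omega⟩

abbrev Fm := List (List (Bin × Bool))

def psi1 (φ : Fm) : Fm := [(⟨0⟩, true), (⟨0⟩, false)] ::
  if [] ∈ φ then [[(⟨0⟩, true)], [(⟨0⟩, false)]] else φ

def psi (φ : Fm) : Fm := psi1 φ ++ psi1 φ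

def lit (ψ : Fm) (o : ℕ) : Bin × Bool :=
  (ψ.getD (o / 3) []).getD (o % 3) ((ψ.getD (o / 3) []).headD (⟨0⟩, true))

def lg (φ : Fm) : ℕ := Nat.log 2 (sz φ + 2)

def e0 (φ : Fm) : ℕ :=
  (List.range φ.length).countP fun e => decide (¬ φ.length ≤ e ^ 2 * lg φ)

def nF (φ : Fm) : ℕ := 3 * (psi φ).length
def SF (φ : Fm) : ℕ := nF φ + (psi φ).length
def bF (φ : Fm) : ℕ := (e0 φ + 1) * lg φ
def BF (φ : Fm) : ℕ := (SF φ + bF φ - 1) / bF φ
def slF (φ : Fm) : ℕ → ℕ :=
  slot (nF φ) (fun o => (lit (psi φ) o).1) (fun o => (lit (psi φ) o).2) fun o => o / 3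
def SbF (φ : Fm) : List (List (List ℕ)) :=
  (List.range (BF φ)).map fun β => subs (Xl (nF φ) (bF φ) (slF φ) β)
def TpF (φ : Fm) : List (List ℕ) := tups ((nF φ + 1) * SF φ) (BF φ)
def rowsF (φ : Fm) : Rows := rows (nF φ) (SF φ) (bF φ) (BF φ) (slF φ) (SbF φ)
def vertsF (φ : Fm) : List (List ℚ) := verts (nF φ) (SF φ) (bF φ) (BF φ) (slF φ) (SbF φ) (TpF φ)
def outF (φ : Fm) : List (List ℚ) × List ℚ × List (List ℚ) :=
  ((rowsF φ).map fun r => r.1, (rowsF φ).map fun r => r.2, vertsF φ)

theorem lg_pos (φ : Fm) : 0 < lg φ := Nat.log_pos (by omega) (by omega)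

theorem least_spec' (p : ℕ → Prop) [DecidablePred p] (mono : ∀ a b, a ≤ b → p a → p b) (d : ℕ)
    (hd : p d) : p ((List.range d).countP fun e => decide (¬ p e)) ∧
      ∀ e, p e → ((List.range d).countP fun e => decide (¬ p e)) ≤ e := by
  have ex : ∃ e, p e := ⟨d, hd⟩
  have e1 : ((List.range d).countP fun e => decide (¬ p e)) = Nat.find ex := by
    obtain ⟨r, hr⟩ := Nat.exists_eq_add_of_le (Nat.find_min' ex hd)
    rw [hr, List.range_add, List.countP_append, List.countP_eq_length.2, List.countP_eq_zero.2]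
    · simp
    · intro a ha
      obtain ⟨c, -, rfl⟩ := List.mem_map.1 ha
      simpa using mono _ _ (Nat.le_add_right _ c) (Nat.find_spec ex)
    · intro a ha
      simpa using Nat.find_min ex (List.mem_range.1 ha)
  rw [e1]
  exact ⟨Nat.find_spec ex, fun e he => Nat.find_min' ex he⟩

theorem e0_spec (φ : Fm) : φ.length ≤ e0 φ ^ 2 * lg φ ∧
    ∀ e, φ.length ≤ e ^ 2 * lg φ → e0 φ ≤ e :=
  least_spec' (fun e => φ.length ≤ e ^ 2 * lg φ)
    (fun _ _ h h' => h'.trans (Nat.mul_le_mul_right _ (Nat.pow_le_pow_left h 2))) _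
    ((Nat.le_self_pow (by omega) _).trans (Nat.le_mul_of_pos_right _ (lg_pos φ)))

theorem bF_pos (φ : Fm) : 0 < bF φ := Nat.mul_pos (by omega) (lg_pos φ)

theorem length_psi1 (φ : Fm) : 0 < (psi1 φ).length ∧ (psi1 φ).length ≤ φ.length + 2 := by
  unfold psi1
  split_ifs with h
  · have := List.length_pos_of_mem h
    simp; omega
  · simp

theorem par_F (φ : Fm) : Par (nF φ) (SF φ) (bF φ) (BF φ) (slF φ) := by
  have h := (length_psi1 φ).1
  have e : (psi φ).length = (psi1 φ).length + (psi1 φ).length := by simp [psi]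
  refine par_slot (by omega) (bF_pos φ) rfl (fun o ho => by unfold nF at ho; omega) fun o ho => ?_
  have k : ∀ o < 3 * (psi1 φ).length, lit (psi φ) (o + 3 * (psi1 φ).length) = lit (psi φ) o := by
    intro o ho
    have e1 : (o + 3 * (psi1 φ).length) / 3 = (psi1 φ).length + o / 3 := by omega
    have e2 : (o + 3 * (psi1 φ).length) % 3 = o % 3 := by omega
    rw [lit, lit, e1, e2, psi, List.getD_append_right _ _ _ _ (by omega), Nat.add_sub_cancel_left,
      List.getD_append _ _ _ _ (by omega)]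
  unfold nF at ho ⊢
  by_cases g : o < 3 * (psi1 φ).length
  · exact ⟨o + 3 * (psi1 φ).length, by omega, by omega, by rw [k o g]⟩
  · refine ⟨o - 3 * (psi1 φ).length, by omega, by omega, ?_⟩
    rw [← k (o - 3 * (psi1 φ).length) (by omega), Nat.sub_add_cancel (by omega)]

theorem tr_F (φ : Fm) (h : ∀ C ∈ φ, C.length ≤ 3) :
    (∃ T, Tr (nF φ) (SF φ) (slF φ) T) ↔ ∃ a : Bin → Bool, ∀ C ∈ φ, ∃ l ∈ C, a l.1 = l.2 := by
  have h1 : ∀ C ∈ psi φ, 0 < C.length ∧ C.length ≤ 3 := by
    intro C hC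
    simp only [psi, List.mem_append, or_self, psi1, List.mem_cons] at hC
    rcases hC with rfl | hC
    · simp
    · split_ifs at hC with g
      · simp only [List.mem_cons, List.not_mem_nil, or_false] at hC
        rcases hC with rfl | rfl <;> simp
      · exact ⟨List.length_pos_iff.2 fun e => g (e ▸ hC), h C hC⟩
  rw [SF, slF, tr_iff]
  refine exists_congr fun a => Iff.trans (b := ∀ C ∈ psi φ, ∃ l ∈ C, a l.1 = l.2) ?_ ?_
  · constructor
    · intro H C hC
      obtain ⟨i, hi, rfl⟩ := List.getElem_of_mem hC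
      obtain ⟨o, -, rfl, e⟩ := H i hi
      refine ⟨_, ?_, e⟩
      rw [lit, List.getD_eq_getElem _ _ hi]
      by_cases g : o % 3 < (psi φ)[o / 3].length
      · rw [List.getD_eq_getElem _ _ g]; exact List.getElem_mem _
      · rw [List.getD_eq_default _ _ (by omega)]
        have := (h1 _ hC).1
        generalize (psi φ)[o / 3] = C at this
        cases C <;> simp at this ⊢
    · intro H i hi
      obtain ⟨l, hl, e⟩ := H _ (List.getElem_mem hi)
      obtain ⟨r, hr, rfl⟩ := List.getElem_of_mem hl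
      have := (h1 _ (List.getElem_mem hi)).2
      have e1 : (3 * i + r) / 3 = i := by omega
      have e2 : (3 * i + r) % 3 = r := by omega
      refine ⟨3 * i + r, by unfold nF; omega, e1, ?_⟩
      simp only [lit, e1, e2, List.getD_eq_getElem _ _ hi, List.getD_eq_getElem _ _ hr, e]
  · simp only [psi, List.mem_append, or_self, psi1, List.forall_mem_cons]
    split_ifs with g
    · refine iff_of_false (fun H => ?_) fun H => by simpa using H _ g
      have := H.2
      simp at this
    · refine and_iff_right ?_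
      cases e : a ⟨0⟩ <;> simp [e]

theorem pt_lg : PT lg := pt_log (by fun_prop)
theorem pt_e0 : PT e0 := by have := pt_lg; unfold e0; fun_prop
theorem pt_psi : PT psi := by unfold psi psi1; fun_prop
theorem pt_nF : PT nF := by have := pt_psi; unfold nF; fun_prop
theorem pt_SF : PT SF := by have := pt_psi; have := pt_nF; unfold SF; fun_prop
theorem pt_bF : PT bF := by have := pt_lg; have := pt_e0; unfold bF; fun_prop
theorem pt_BF : PT BF := by have := pt_SF; have := pt_bF; unfold BF; fun_prop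

@[fun_prop] theorem pt_lit {α : Type} [Enc α] {ψ : α → Fm} {o : α → ℕ} (h : PT ψ) (ho : PT o) :
    PT fun x => lit (ψ x) (o x) := by
  unfold lit; fun_prop

theorem pt_slF : PT fun p : Fm × ℕ => slF p.1 p.2 := by
  have := pt_psi
  have := pt_nF
  unfold slF slot nxt; fun_prop

theorem pt_outF {α : Type} [Enc α] {inp : α → Fm} (hi : PT inp)
    (hp : ∀ x, pad e0 (inp x) ≤ sz x) : PT fun x => outF (inp x) := by
  have h1 := pt_nF.comp hi
  have h2 := pt_SF.comp hi
  have h3 := pt_bF.comp hi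
  have h4 := pt_BF.comp hi
  have h5 : PT fun p : α × ℕ => slF (inp p.1) p.2 :=
    pt_slF.comp (g := fun p : α × ℕ => (inp p.1, p.2)) (by fun_prop)
  have h6 : PT fun x => SbF (inp x) := by
    refine PT.map (pt_subs (pt_Xl (h1.comp PT.fst') (h3.comp PT.fst')
      (h5.comp (g := fun p : (α × ℕ) × ℕ => (p.1.1, p.2)) (by fun_prop)) PT.snd')
      (fun n => n ^ 9) (by fun_prop) fun p => ?_) (by fun_prop)
    refine (Nat.pow_le_pow_right (by omega) (length_Xl _ _ _ _ _ (bF_pos _))).trans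
      (le_trans ?_ (Nat.pow_le_pow_left ((hp p.1).trans (sz_fst_le p)) 9))
    rw [pad, bF, mul_comm 9, pow_mul, mul_comm, pow_mul]
    exact Nat.pow_le_pow_left (Nat.pow_le_pow_left (Nat.pow_log_le_self 2 (by omega)) _) _
  have h7 : PT fun x => TpF (inp x) := by
    refine pt_tups (by fun_prop) h4 (fun n => n ^ 136) (by fun_prop) fun x => ?_
    refine le_trans ?_ (Nat.pow_le_pow_left (hp x) 136)
    generalize inp x = φ
    have a1 := (length_psi1 φ).2
    have a2 := length_le_sz φ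
    have a3 : (psi φ).length = (psi1 φ).length + (psi1 φ).length := by simp [psi]
    have a4 := (e0_spec φ).1
    have a5 := lg_pos φ
    have b1 : (nF φ + 1) * SF φ + 1 ≤ (sz φ + 2) ^ 8 := by
      have c1 : (nF φ + 1) * SF φ ≤ (7 * (sz φ + 2)) * (8 * (sz φ + 2)) :=
        Nat.mul_le_mul (by unfold nF; omega) (by unfold SF nF; omega)
      have c2 : 2 ^ 6 ≤ (sz φ + 2) ^ 6 := Nat.pow_le_pow_left (by omega) 6
      have c3 : (sz φ + 2) ^ 8 = (sz φ + 2) ^ 6 * ((sz φ + 2) * (sz φ + 2)) := by ring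
      nlinarith
    have b2 : BF φ ≤ 17 * (e0 φ + 1) := by
      refine Nat.div_le_of_le_mul ?_
      have c1 : SF φ ≤ 8 * (e0 φ ^ 2 * lg φ) + 16 := by unfold SF nF; omega
      have c2 : SF φ ≤ bF φ * (16 * (e0 φ + 1)) := by unfold bF; nlinarith
      have c3 : bF φ * 1 ≤ bF φ * (e0 φ + 1) := Nat.mul_le_mul_left _ (by omega)
      have c4 : bF φ * (17 * (e0 φ + 1)) = bF φ * (16 * (e0 φ + 1)) + bF φ * (e0 φ + 1) := by ring
      omega
    refine (Nat.pow_le_pow_left b1 _).trans ?_
    rw [pad, ← pow_mul, ← pow_mul]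
    exact Nat.pow_le_pow_right (by omega) (by omega)
  have h8 : PT fun x => rowsF (inp x) := pt_rows h1 h2 h3 h4 h5 h6
  have h9 : PT fun x => vertsF (inp x) := pt_verts h1 h2 h3 h4 h5 h6 h7
  unfold outF; fun_prop

theorem exists_tm_out {α β : Type} [Enc α] [Enc β] {e : α → ℕ} (he : PT e) (f : α → β)
    (hf : PT fun p : {p : α × ℕ // p.2 = pad e p.1} => f p.1.1) :
    ∃ (M : TM2ComputableAux Bool Bool) (c : ℕ), (∀ k, Finite (M.tm.Γ k)) ∧ ∀ a,
      ∀ e', e a ≤ e' → Nonempty (TM2OutputsInTime M.tm (List.map M.inputAlphabet.invFun (enc a))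
        (some (List.map M.outputAlphabet.invFun (enc (f a)))) ((sz a + 2) ^ (c * (e' + 1)))) := by
  obtain ⟨P, t, ht, h1⟩ := pad_run he
  obtain ⟨Q, u, hu, h2⟩ := hf
  obtain ⟨c, hc⟩ := poly_le_pow (t := fun n => t n + u (3 * n)) (by fun_prop)
  refine ⟨⟨(Prog.seq P Q).tm, Equiv.refl Bool, Equiv.refl Bool⟩, c,
    fun _ => inferInstanceAs (Finite Bool), fun a e' he' => ?_⟩
  have hp := le_pad e a
  have h3 := (h2 ⟨(a, pad e a), rfl⟩).mono (hu.mono (n := 3 * pad e a) (by
    show sz (a, pad e a) ≤ _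
    rw [sz_pair, sz_nat]; omega))
  obtain ⟨s, hs1, hs2⟩ := (h1 a).seq h3
  refine ⟨⟨⟨s, ?_⟩, ?_⟩⟩
  · have := (Prog.seq P Q).tm_run hs2
    erw [List.map_id, List.map_id]
    exact this
  · refine hs1.trans ((hc _ (by omega)).trans ?_)
    rw [pad, ← pow_mul]
    exact Nat.pow_le_pow_right (by omega) (by rw [mul_comm]; exact Nat.mul_le_mul_left _ (by omega))

theorem ofFn_ent {D : ℕ} {z : List ℚ} (h : z.length = D) :
    (List.ofFn fun j : Fin D => ent z j) = z := by
  subst h
  refine List.ext_getElem (by simp) fun i h1 h2 => ?_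
  simp [ent, List.getD_eq_getElem?_getD]

theorem assemble {D : ℕ} {R : Rows} {W : List (List ℚ)} {Q : Prop} (h1 : W.Nodup)
    (h2 : ∀ z ∈ W, z.length = D ∧ vec D z ∈ (Pol D R).extremePoints ℝ)
    (h3 : (∃ x ∈ (Pol D R).extremePoints ℝ, ∀ z ∈ W, x ≠ vec D z) ↔ Q)
    (h4 : Bornology.IsBounded (Pol D R)) (h5 : ∀ r ∈ R, r.1.length = D) :
    ∃ (m d n : ℕ) (A : Fin m → Fin d → ℚ) (b : Fin m → ℚ) (V : Fin n → Fin d → ℚ),
      (List.ofFn fun i => List.ofFn (A i), List.ofFn b, List.ofFn fun k => List.ofFn (V k)) =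
        (R.map fun r => r.1, R.map fun r => r.2, W) ∧
      Bornology.IsBounded {x : Fin d → ℝ | ∀ i, ∑ j, (A i j : ℝ) * x j ≤ b i} ∧
      Function.Injective V ∧
      (∀ k, (fun j => (V k j : ℝ)) ∈
        {x : Fin d → ℝ | ∀ i, ∑ j, (A i j : ℝ) * x j ≤ b i}.extremePoints ℝ) ∧
      ((∃ x ∈ {x : Fin d → ℝ | ∀ i, ∑ j, (A i j : ℝ) * x j ≤ b i}.extremePoints ℝ,
        ∀ k, x ≠ fun j => (V k j : ℝ)) ↔ Q) := by
  have e : {x : Fin D → ℝ | ∀ i : Fin R.length, ∑ j : Fin D, (ent R[i].1 j : ℝ) * x j ≤ R[i].2} =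
      Pol D R := by
    ext x
    exact ⟨fun hx r hr => by
      obtain ⟨i, hi, rfl⟩ := List.getElem_of_mem hr
      exact hx ⟨i, hi⟩, fun hx i => hx _ (List.getElem_mem _)⟩
  have e2 : ∀ k : Fin W.length, (List.ofFn fun j : Fin D => ent W[k] j) = W[k] := fun k =>
    ofFn_ent (h2 _ (List.getElem_mem _)).1
  refine ⟨R.length, D, W.length, fun i j => ent R[i].1 j, fun i => R[i].2, fun k j => ent W[k] j,
    ?_, by rw [e]; exact h4, fun k k' g => ?_,
    fun k => by rw [e]; exact (h2 W[k] (List.getElem_mem _)).2, ?_⟩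
  · refine Prod.ext ?_ (Prod.ext ?_ ?_)
    · refine List.ext_getElem (by simp) fun i h1 h2 => ?_
      simp only [List.getElem_ofFn, List.getElem_map]
      exact ofFn_ent (h5 _ (List.getElem_mem _))
    · refine List.ext_getElem (by simp) fun i h1 h2 => ?_
      simp
    · refine List.ext_getElem (by simp) fun i h1 h2 => ?_
      simp only [List.getElem_ofFn]
      exact e2 _
  · have := congrArg List.ofFn g
    simp only [e2] at this
    exact Fin.ext ((List.Nodup.getElem_inj_iff h1).1 this)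
  · rw [e, ← h3]
    refine exists_congr fun x => and_congr_right fun _ => ⟨fun g z hz => ?_, fun g k => ?_⟩
    · obtain ⟨i, hi, rfl⟩ := List.getElem_of_mem hz
      exact g ⟨i, hi⟩
    · exact g _ (List.getElem_mem _)

/-- Correctness of the reduction. -/
theorem outF_spec (φ : Fm) (h : ∀ C ∈ φ, C.length ≤ 3) :
    ∃ (m d n : ℕ) (A : Fin m → Fin d → ℚ) (b : Fin m → ℚ) (V : Fin n → Fin d → ℚ),
      (List.ofFn fun i => List.ofFn (A i), List.ofFn b, List.ofFn fun k => List.ofFn (V k)) =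
        outF φ ∧
      Bornology.IsBounded {x : Fin d → ℝ | ∀ i, ∑ j, (A i j : ℝ) * x j ≤ b i} ∧
      Function.Injective V ∧
      (∀ k, (fun j => (V k j : ℝ)) ∈
        {x : Fin d → ℝ | ∀ i, ∑ j, (A i j : ℝ) * x j ≤ b i}.extremePoints ℝ) ∧
      ((∃ x ∈ {x : Fin d → ℝ | ∀ i, ∑ j, (A i j : ℝ) * x j ≤ b i}.extremePoints ℝ,
        ∀ k, x ≠ fun j => (V k j : ℝ)) ↔ ∃ a : Bin → Bool, ∀ C ∈ φ, ∃ l ∈ C, a l.1 = l.2) := by
  have hSb : ∀ β < BF φ, (SbF φ).getD β [] = subs (Xl (nF φ) (bF φ) (slF φ) β) := fun β hβ => by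
    simp [SbF, List.getD_eq_getElem?_getD, hβ]
  obtain ⟨h1, h2, h3⟩ := main_geo (par_F φ) hSb (Tp := TpF φ) fun ρ a b => mem_tups.2 ⟨a, b⟩
  exact assemble h1 h2 (h3.trans (tr_F φ h)) (bdd_Pol (par_F φ) hSb) length_rows

/-- Formulas with variables in binary. -/
def toB (φ : List (List (ℕ × Bool))) : Fm := φ.map fun C => C.map fun l => (⟨l.1⟩, l.2)

theorem enc_toB (φ : List (List (ℕ × Bool))) : enc (toB φ) = N487b59b3.bitEncode φ := by
  show (((toB φ).map enc).map _).flatten = ((φ.map N487b59b3.bitEncode).map _).flatten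
  rw [toB, List.map_map (l := φ)]
  congr 2
  refine List.map_congr_left fun C _ => ?_
  show (((C.map _).map enc).map _).flatten = ((C.map N487b59b3.bitEncode).map _).flatten
  rw [List.map_map (l := C)]
  rfl

theorem sat_toB (φ : List (List (ℕ × Bool))) :
    (∃ a : Bin → Bool, ∀ C ∈ toB φ, ∃ l ∈ C, a l.1 = l.2) ↔
      ∃ a : ℕ → Bool, ∀ C ∈ φ, ∃ l ∈ C, a l.1 = l.2 := by
  simp only [toB, List.forall_mem_map]
  simp only [List.mem_map, exists_exists_and_eq_and]
  exact ⟨fun ⟨a, h⟩ => ⟨fun n => a ⟨n⟩, h⟩, fun ⟨a, h⟩ => ⟨fun n => a n.val, h⟩⟩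

end Pool.Agent.Work.MP_0bf9cb_lc.Eth
end
end
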