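import Pool.Agent.Work.MP_0bf9cb_lc.Eth.Main
import Pool.Agent.Work.MP_0bf9cb_lc.Eth

/-!
A fast algorithm for the vertex enumeration problem gives a subexponential test for 3-SAT.
-/

namespace Pool.Agent.Work.MP_0bf9cb_lc.Eth

open Pool.Agent.Lib.Poly Turing Filter Asymptotics

theorem sz_outF : ∃ c, ∀ φ : Fm, sz (outF φ) ≤ pad e0 φ ^ c := by
  have h : PT fun p : {p : Fm × ℕ // p.2 = pad e0 p.1} => outF p.1.1 :=
    pt_outF (PT.fst (pt_val _)) fun x => by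
      rw [← x.2]; exact (sz_snd_le x.1).trans' (by simp)
  obtain ⟨s, hs, hs'⟩ := h.size
  obtain ⟨c, hc⟩ := poly_le_pow (t := fun n => s (3 * n)) (by fun_prop)
  refine ⟨c, fun φ => ?_⟩
  have hp := le_pad e0 φ
  refine (hs' ⟨(φ, pad e0 φ), rfl⟩).trans ((hs.mono ?_).trans (hc _ (by omega)))
  show sz (φ, pad e0 φ) ≤ _
  rw [sz_pair, sz_nat]; omega

theorem pad_bound (φ : List (List (ℕ × Bool))) (h : ∀ C ∈ φ, C.length ≤ 3)
    (hv : ∀ C ∈ φ, ∀ l ∈ C, l.1 < 3 * φ.length) : ∃ y, pad e0 (toB φ) ≤ 2 ^ y ∧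
      y ^ 2 ≤ 10512 * ((φ.length + 1) * Nat.log 2 (φ.length + 2)) := by
  have hl : (toB φ).length = φ.length := by simp [toB]
  have a1 : sz (toB φ) ≤ φ.length * (2 * (3 * (2 * (6 * φ.length + 2) + 1)) + 1) := by
    rw [← hl]
    refine sz_list_le _ _ fun C hC => ?_
    obtain ⟨D, hD, rfl⟩ := List.mem_map.1 hC
    refine (sz_list_le _ (6 * φ.length + 2) fun l hl => ?_).trans
      (by rw [hl]; exact Nat.mul_le_mul_right _ (by simpa using h D hD))
    obtain ⟨x, hx, rfl⟩ := List.mem_map.1 hl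
    have := Bin.sz_le ((hv D hD x hx).trans Nat.lt_two_pow_self)
    rw [sz_pair, sz_bool]; omega
  have a2 := e0_spec (toB φ)
  have a3 := lg_pos (toB φ)
  have a4 : sz (toB φ) + 2 < 2 ^ (lg (toB φ) + 1) := Nat.lt_pow_succ_log_self (by omega) _
  have a5 : φ.length + 2 < 2 ^ (Nat.log 2 (φ.length + 2) + 1) :=
    Nat.lt_pow_succ_log_self (by omega) _
  have a6 : 2 ^ lg (toB φ) ≤ sz (toB φ) + 2 := Nat.pow_log_le_self 2 (by omega)
  have a7 : 0 < Nat.log 2 (φ.length + 2) := Nat.log_pos (by omega) (by omega)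
  have a8 : Nat.log 2 (φ.length + 2) < φ.length + 2 := Nat.log_lt_self 2 (by omega)
  rw [hl] at a2
  refine ⟨(lg (toB φ) + 1) * (e0 (toB φ) + 1), ?_, ?_⟩
  · rw [pad, pow_mul]; exact Nat.pow_le_pow_left a4.le _
  generalize sz (toB φ) = s at *
  generalize lg (toB φ) = g at *
  generalize e0 (toB φ) = e at *
  generalize Nat.log 2 (φ.length + 2) = j at *
  generalize φ.length = m at *
  have b1 : g ≤ 18 * j := by
    have c2 : 2 ^ 7 ≤ (m + 2) ^ 7 := Nat.pow_le_pow_left (by omega) 7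
    have c3 : (m + 2) ^ 9 = (m + 2) ^ 7 * ((m + 2) * (m + 2)) := by ring
    have c4 : s + 2 ≤ (m + 2) ^ 9 := by nlinarith only [a1, c2]
    have c5 := a6.trans (c4.trans (Nat.pow_le_pow_left a5.le 9))
    rw [← pow_mul] at c5
    have := (Nat.pow_le_pow_iff_right (by omega)).1 c5
    omega
  have b2 : (e + 1) ^ 2 * g ≤ 2 * m + 8 * g := by
    rcases e with _ | e
    · omega
    · have : e ^ 2 * g < m := not_le.1 fun h => by have := a2.2 e h; omega
      have c : (e + 1 + 1) ^ 2 ≤ 2 * e ^ 2 + 8 := by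
        zify; linarith only [sq_nonneg ((e : ℤ) - 2), sq_nonneg (↑e - (2 : ℤ))]
      linarith only [this, c, Nat.mul_le_mul_right g c]
  have b3 : (g + 1) ^ 2 ≤ 4 * g * g := by nlinarith only [a3]
  calc ((g + 1) * (e + 1)) ^ 2 = (g + 1) ^ 2 * (e + 1) ^ 2 := by ring
    _ ≤ 4 * g * g * (e + 1) ^ 2 := Nat.mul_le_mul_right _ b3
    _ = 4 * g * ((e + 1) ^ 2 * g) := by ring
    _ ≤ 4 * (18 * j) * (146 * (m + 1)) := Nat.mul_le_mul (by omega) (by omega)
    _ = _ := by ring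

theorem sqrt_bound (a k : ℕ) : ∃ C, ∀ m y, y ^ 2 ≤ a * ((m + 1) * Nat.log 2 (m + 2)) →
    y ≤ m / (k + 1) + C := by
  obtain ⟨K, hK⟩ : ∃ K, K = 2 * a * (k + 1) ^ 2 := ⟨_, rfl⟩
  refine ⟨a * (2 ^ (K + 4) * (K + 4)) + 2, fun m y h => ?_⟩
  have a5 : m + 2 < 2 ^ (Nat.log 2 (m + 2) + 1) := Nat.lt_pow_succ_log_self (by omega) _
  have a6 : 2 ^ Nat.log 2 (m + 2) ≤ m + 2 := Nat.pow_log_le_self 2 (by omega)
  generalize Nat.log 2 (m + 2) = j at *
  by_cases hj : j < K + 4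
  · have b1 : 2 ^ (j + 1) ≤ 2 ^ (K + 4) := Nat.pow_le_pow_right (by omega) hj
    have b2 : a * ((m + 1) * j) ≤ a * (2 ^ (K + 4) * (K + 4)) :=
      Nat.mul_le_mul_left _ (Nat.mul_le_mul (by omega) hj.le)
    have b3 : y ≤ y ^ 2 := Nat.le_self_pow (by omega) _
    have := Nat.zero_le (m / (k + 1))
    omega
  · have b1 : ∀ i, (i + 4) * (i + 4) ≤ 2 ^ (i + 4) := by
      intro i
      induction i with
      | zero => norm_num
      | succ i ih => rw [show i + 1 + 4 = (i + 4) + 1 by ring, pow_succ]; linarith only [ih, mul_nonneg_of_nonpos_of_nonpos (Mathlib.Tactic.Linarith.sub_nonpos_of_le (Mathlib.Tactic.Linarith.natCast_nonneg ℤ i)) (Mathlib.Tactic.Linarith.sub_nonpos_of_le (Mathlib.Tactic.Linarith.natCast_nonneg ℤ i))]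
    have b2 := b1 (j - 4)
    rw [show j - 4 + 4 = j by omega] at b2
    have b3 : K * j ≤ m := by nlinarith only [a6, hj, b2]
    have b4 : 0 < m := by nlinarith only [a6, hj, b2]
    have b5 : (y * (k + 1)) ^ 2 ≤ m ^ 2 := by
      calc (y * (k + 1)) ^ 2 = y ^ 2 * (k + 1) ^ 2 := by ring
        _ ≤ a * ((m + 1) * j) * (k + 1) ^ 2 := Nat.mul_le_mul_right _ h
        _ ≤ a * ((2 * m) * j) * (k + 1) ^ 2 := by gcongr; omega
        _ = m * (K * j) := by rw [hK]; ring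
        _ ≤ m * m := Nat.mul_le_mul_left _ b3
        _ = m ^ 2 := by ring
    have b6 := (Nat.le_div_iff_mul_le (by omega)).2 ((Nat.pow_le_pow_iff_left (by omega)).1 b5)
    omega

theorem time_bound {T : ℕ → ℕ} (hT : (fun N : ℕ => Real.log (T N)) =o[atTop]
    fun N : ℕ => Real.log N ^ 2 / Real.log (Real.log N)) (a k : ℕ) :
    ∃ C, ∀ N x m, N ≤ 2 ^ x → x ^ 2 ≤ a * ((m + 1) * Nat.log 2 (m + 2)) →
      T N ≤ C * 2 ^ (m / (k + 1)) := by
  have l2 : (1 : ℝ) / 2 < Real.log 2 := by linarith only [Real.log_two_gt_d9]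
  have l3 : Real.log 2 < 1 := by linarith only [l2, Real.log_two_lt_d9]
  have h1 := hT.def (c := Real.log 2 / ((4 * a + 2) * (k + 1))) (by positivity)
  have h2 : ∀ᶠ N : ℕ in atTop, 1 ≤ Real.log (Real.log N) :=
    (Real.tendsto_log_atTop.comp (Real.tendsto_log_atTop.comp
      tendsto_natCast_atTop_atTop)).eventually_ge_atTop 1
  obtain ⟨N0, h0⟩ := eventually_atTop.1 (h1.and (h2.and (eventually_ge_atTop 2)))
  refine ⟨(Finset.range N0).sup T + 2, fun N x m hx hm => ?_⟩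
  have p1 : 1 ≤ 2 ^ (m / (k + 1)) := Nat.one_le_two_pow
  by_cases hN : N < N0
  · have := Finset.le_sup (f := T) (Finset.mem_range.2 hN)
    nlinarith only [p1, this]
  obtain ⟨g1, g2, g3⟩ := h0 N (by omega)
  have u0 : 0 < Real.log N := Real.log_pos (by exact_mod_cast g3)
  have u1 : Real.log N ≤ x := by
    have : Real.log N ≤ Real.log (2 ^ x) :=
      Real.log_le_log (by positivity) (by exact_mod_cast hx)
    rw [Real.log_pow] at this
    linarith only [this, l3, Nat.cast_nonneg (α := ℝ) x, mul_nonneg_of_nonpos_of_nonpos (Mathlib.Tactic.Linarith.sub_nonpos_of_le (Mathlib.Tactic.Linarith.natCast_nonneg ℝ x)) (le_of_lt (Mathlib.Tactic.Linarith.sub_neg_of_lt l3))]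
  have a6 : 2 ^ Nat.log 2 (m + 2) ≤ m + 2 := Nat.pow_log_le_self 2 (by omega)
  generalize Nat.log 2 (m + 2) = j at *
  generalize Real.log N = u at *
  have m0 : (0 : ℝ) ≤ m := by positivity
  have a0 : (0 : ℝ) ≤ a := by positivity
  have j0 : (0 : ℝ) ≤ j := by positivity
  have key : u ^ 2 / Real.log u ≤ (4 * a + 2) * (m + 1) := by
    rw [div_le_iff₀ (by linarith only [l2, l3, g2])]
    by_cases hc : u ^ 2 ≤ m + 2
    · (refine le_of_not_gt fun h_nl => ?_; linarith only [h_nl, g2, hc, a0, m0, l2, l3, mul_nonneg a0 m0, mul_nonneg_of_nonpos_of_nonpos (Mathlib.Tactic.Linarith.sub_nonpos_of_le (Mathlib.Tactic.Linarith.natCast_nonneg ℝ a)) (Mathlib.Tactic.Linarith.sub_nonpos_of_le g2), mul_nonneg_of_nonpos_of_nonpos (Mathlib.Tactic.Linarith.sub_nonpos_of_le (Mathlib.Tactic.Linarith.natCast_nonneg ℝ m)) (Mathlib.Tactic.Linarith.sub_nonpos_of_le g2), mul_pos_of_neg_of_neg (Mathlib.Tactic.Linarith.sub_neg_of_lt l2)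 (Mathlib.Tactic.Linarith.sub_neg_of_lt h_nl), mul_pos_of_neg_of_neg (Mathlib.Tactic.Linarith.sub_neg_of_lt l3) (Mathlib.Tactic.Linarith.sub_neg_of_lt h_nl), mul_nonneg_of_nonpos_of_nonpos (Mathlib.Tactic.Linarith.sub_nonpos_of_le g2) (Mathlib.Tactic.Linarith.sub_nonpos_of_le (mul_nonneg a0 m0))])
    · have b1 : Real.log (2 ^ j) ≤ Real.log (u ^ 2) :=
        Real.log_le_log (by positivity) (le_trans (by exact_mod_cast a6) (not_le.1 hc).le)
      rw [Real.log_pow, Real.log_pow] at b1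
      have b2 : (j : ℝ) ≤ 4 * Real.log u := by push_cast at b1; linarith only [b1, l2, mul_nonneg_of_nonpos_of_nonpos (Mathlib.Tactic.Linarith.sub_nonpos_of_le (Mathlib.Tactic.Linarith.natCast_nonneg ℝ j)) (le_of_lt (Mathlib.Tactic.Linarith.sub_neg_of_lt l2))]
      have b3 : (x : ℝ) ^ 2 ≤ a * ((m + 1) * j) := by exact_mod_cast hm
      have b4 : u ^ 2 ≤ (x : ℝ) ^ 2 := by linarith only [u1, u0, mul_nonneg_of_nonpos_of_nonpos (Mathlib.Tactic.Linarith.sub_nonpos_of_le (Mathlib.Tactic.Linarith.natCast_nonneg ℝ x)) (Mathlib.Tactic.Linarith.sub_nonpos_of_le u1), mul_nonneg_of_nonpos_of_nonpos (le_of_lt (Mathlib.Tactic.Linarith.sub_neg_of_lt u0)) (Mathlib.Tactic.Linarith.sub_nonpos_of_le u1)]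
      have b5 : a * ((m + 1) * j) ≤ a * ((m + 1) * (4 * Real.log u)) := by gcongr
      (refine le_of_not_gt fun h_nl => ?_; linarith only [h_nl, l2, l3, hc, b3, b4, b5, mul_nonneg_of_nonpos_of_nonpos (Mathlib.Tactic.Linarith.sub_nonpos_of_le (Mathlib.Tactic.Linarith.natCast_nonneg ℝ a)) (Mathlib.Tactic.Linarith.sub_nonpos_of_le b3), mul_nonneg_of_nonpos_of_nonpos (Mathlib.Tactic.Linarith.sub_nonpos_of_le (Mathlib.Tactic.Linarith.natCast_nonneg ℝ a)) (Mathlib.Tactic.Linarith.sub_nonpos_of_le b4), mul_nonneg_of_nonpos_of_nonpos (Mathlib.Tactic.Linarith.sub_nonpos_of_le (Mathlib.Tactic.Linarith.natCast_nonneg ℝ a)) (Mathlib.Tactic.Linarith.sub_nonpos_of_le b5), mul_nonneg_of_nonpos_of_nonpos (Mathlib.Tactic.Linarith.sub_nonpos_of_le (Mathlib.Tactic.Linarith.natCast_nonneg ℝ a)) (le_of_lt (Mathlib.Tactic.Linarith.sub_neg_of_lt h_nl))])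
  have k1 : Real.log (T N) ≤ Real.log (2 ^ (m / (k + 1) + 1)) := by
    rw [Real.norm_eq_abs, Real.norm_eq_abs, abs_of_nonneg (a := u ^ 2 / _)
      (div_nonneg (by positivity) (by linarith only [l2, l3, g2]))] at g1
    have c1 := (le_abs_self _).trans (g1.trans (mul_le_mul_of_nonneg_left key (by positivity)))
    have c2 : ((m : ℝ) + 1) ≤ ((m / (k + 1) + 1 : ℕ) : ℝ) * (k + 1) := by
      have := Nat.lt_div_mul_add (a := m) (b := k + 1) (by omega)
      have : m + 1 ≤ (m / (k + 1) + 1) * (k + 1) := by rw [Nat.add_mul]; omega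
      exact_mod_cast this
    rw [Real.log_pow]
    refine c1.trans ?_
    rw [div_mul_eq_mul_div, div_le_iff₀ (by positivity)]
    have c3 := mul_le_mul_of_nonneg_left c2 (show 0 ≤ Real.log 2 * (4 * a + 2) by positivity)
    linarith only [c3]
  have k2 : T N ≤ 2 ^ (m / (k + 1) + 1) := by
    rcases Nat.eq_zero_or_pos (T N) with e | e
    · omega
    · exact_mod_cast (Real.log_le_log_iff (by exact_mod_cast e) (by positivity)).1 k1
  rw [pow_succ] at k2
  nlinarith only [k2, p1]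

/-- The transfer theorem. -/
theorem exists_test (M : TM2ComputableAux Bool Bool) (T : ℕ → ℕ)
    (hT : (fun N : ℕ => Real.log (T N)) =o[atTop]
      fun N : ℕ => Real.log N ^ 2 / Real.log (Real.log N))
    (hM : ∀ (m d n : ℕ) (A : Fin m → Fin d → ℚ) (b : Fin m → ℚ) (V : Fin n → Fin d → ℚ)
      (P : Set (Fin d → ℝ)) (w : List Bool),
      P = {x | ∀ i, ∑ j, (A i j : ℝ) * x j ≤ b i} →
      w = N487b59b3.bitEncode (List.ofFn fun i => List.ofFn (A i), List.ofFn b,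
        List.ofFn fun k => List.ofFn (V k)) →
      Bornology.IsBounded P → Function.Injective V →
      (∀ k, (fun j => (V k j : ℝ)) ∈ P.extremePoints ℝ) → ∀ ans : Bool,
      (ans = true ↔ ∃ x ∈ P.extremePoints ℝ, ∀ k, x ≠ fun j => (V k j : ℝ)) →
      Nonempty (TM2OutputsInTime M.tm (w.map M.inputAlphabet.invFun)
        (some ([ans].map M.outputAlphabet.invFun)) (T w.length))) :
    ∃ F : List (List (ℕ × Bool)) × ℕ → Bool, PT F ∧ ∀ k, ∃ c, ∀ φ : List (List (ℕ × Bool)),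
      (∀ C ∈ φ, C.length ≤ 3) → (∀ C ∈ φ, ∀ l ∈ C, l.1 < 3 * φ.length) →
      ∀ t, c * 2 ^ (φ.length / (k + 1)) ≤ t →
        (F (φ, t) = true ↔ ∃ a : ℕ → Bool, ∀ C ∈ φ, ∃ l ∈ C, a l.1 = l.2) := by
  classical
  obtain ⟨G, c0, hG, hc0⟩ := exists_clock M
  have hB : PT toB := by unfold toB; fun_prop
  have h1 : PT fun p : {p : List (List (ℕ × Bool)) × ℕ // pad e0 (toB p.1) ≤ p.2} =>
      outF (toB p.1.1) :=
    pt_outF (hB.comp (PT.fst (pt_val _))) fun x => x.2.trans ((sz_snd_le x.1).trans' (by simp))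
  obtain ⟨F, hF, hF'⟩ := pt_extend (hG.comp (PT.mk h1.toEnc (PT.snd (pt_val _))))
  obtain ⟨c1, hc1⟩ := sz_outF
  refine ⟨F, hF, fun k => ?_⟩
  obtain ⟨C1, hC1⟩ := sqrt_bound 10512 k
  obtain ⟨C2, hC2⟩ := time_bound hT (c1 ^ 2 * 10512) k
  refine ⟨2 ^ C1 + c0 * (C2 + 1), fun φ h hv t ht => ?_⟩
  obtain ⟨y, y1, y2⟩ := pad_bound φ h hv
  have p1 : 1 ≤ 2 ^ (φ.length / (k + 1)) := Nat.one_le_two_pow
  have a1 : pad e0 (toB φ) ≤ t := by
    refine y1.trans ((Nat.pow_le_pow_right (by omega) (hC1 _ _ y2)).trans (le_trans ?_ ht))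
    rw [pow_add, mul_comm]
    exact Nat.mul_le_mul_right _ (Nat.le_add_right _ _)
  have a2 := hC2 (sz (outF (toB φ))) (c1 * y) φ.length
    ((hc1 _).trans (by rw [mul_comm, pow_mul]; exact Nat.pow_le_pow_left y1 _))
    (by rw [mul_pow, mul_assoc]; exact Nat.mul_le_mul_left _ y2)
  obtain ⟨m, d, n, A, b, V, e1, e2, e3, e4, e5⟩ := outF_spec (toB φ) (by
    simpa only [toB, List.forall_mem_map, List.length_map] using h)
  have a3 := hM m d n A b V _ (enc (outF (toB φ))) rfl (by rw [← e1]; rfl) e2 e3 e4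
    (decide (∃ a : ℕ → Bool, ∀ C ∈ φ, ∃ l ∈ C, a l.1 = l.2))
    (by rw [decide_eq_true_eq, e5, sat_toB])
  have a4 := hc0 _ _ _ t a3 (by
    refine le_trans ?_ (le_trans (Nat.mul_le_mul_right _ (Nat.le_add_left _ _)) ht)
    rw [mul_assoc]
    exact Nat.mul_le_mul_left _ (by unfold sz at a2; rw [Nat.add_mul]; omega))
  rw [hF' ⟨(φ, t), a1⟩]
  simp only [a4, decide_eq_true_eq]

end Pool.Agent.Work.MP_0bf9cb_lc.Eth
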